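import Pool.Agent.Lib.MP_0d9be2_nt.H83.Root
import Pool.Agent.Lib.MP_0d9be2_nt.H39.Global0
import Pool.Agent.Lib.MP_0d9be2_nt.H15.Powers

/-!
# Branch points of order `p`
-/

set_option autoImplicit false

open scoped NumberField
open IsDedekindDomain Set Filter Topology

namespace Pool.Agent.MP_0d9be2.H83

open Pool.Agent.MP_0d9be2.H15

variable {K : Type} [Field K] [NumberField K]

theorem isOpen_half (a : ℝ) : IsOpen {s : ℂ | a < s.re} :=
  isOpen_lt continuous_const Complex.continuous_re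

theorem continuous_dev (W : WeierstrassCurve (𝓞 K)) (v : HeightOneSpectrum (𝓞 K)) :
    Continuous fun s => dev W v s := by
  have hN : (Ideal.absNorm v.asIdeal : ℂ) ≠ 0 := by exact_mod_cast (absNorm_pos v).ne'
  unfold dev factor
  simp only [inv_inv]
  refine Continuous.sub (Continuous.add (continuous_const.sub (continuous_const.mul ?_))
    (continuous_const.mul ?_)) continuous_const
  · exact continuous_neg.const_cpow (Or.inl hN)
  · exact (continuous_const.mul continuous_id).const_cpow (Or.inl hN)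

/-- The Euler product is continuous for `Re s > 2`. -/
theorem continuousOn_L (W : HeightOneSpectrum (𝓞 K) → WeierstrassCurve (𝓞 K)) :
    ContinuousOn (fun s => ∏' v : HeightOneSpectrum (𝓞 K), factor (W v) v s)
      {s : ℂ | 2 < s.re} := by
  intro s₀ hs₀
  have hs₀' : 2 < s₀.re := hs₀
  obtain ⟨a, ha2, ha⟩ := exists_between hs₀'
  have hsum : Summable fun v : HeightOneSpectrum (𝓞 K) =>
      (Ideal.absNorm v.asIdeal : ℝ) ^ (1 - a) + (Ideal.absNorm v.asIdeal : ℝ) ^ (1 - 2 * a) := by
    have h1 : Summable fun v : HeightOneSpectrum (𝓞 K) =>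
        (Ideal.absNorm v.asIdeal : ℝ) ^ (1 - a) := by
      have := summable_norm (K := K) (t := a - 1) (by linarith)
      simpa using this
    have h2 : Summable fun v : HeightOneSpectrum (𝓞 K) =>
        (Ideal.absNorm v.asIdeal : ℝ) ^ (1 - 2 * a) := by
      have := summable_norm (K := K) (t := 2 * a - 1) (by linarith)
      simpa using this
    exact h1.add h2
  have hbound : ∀ᶠ v : HeightOneSpectrum (𝓞 K) in cofinite, ∀ s ∈ {s : ℂ | a < s.re},
      ‖dev (W v) v s‖ ≤ (Ideal.absNorm v.asIdeal : ℝ) ^ (1 - a) +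
        (Ideal.absNorm v.asIdeal : ℝ) ^ (1 - 2 * a) := by
    refine Eventually.of_forall fun v s hs => ?_
    have hs' : a < s.re := hs
    refine (norm_dev_le (W v) v (ha2.trans hs')).trans ?_
    have hN : (1 : ℝ) ≤ Ideal.absNorm v.asIdeal := by
      exact_mod_cast absNorm_pos v
    have h1 : (Ideal.absNorm v.asIdeal : ℝ) ^ (1 - s.re) ≤ (Ideal.absNorm v.asIdeal : ℝ) ^ (1 - a) :=
      Real.rpow_le_rpow_of_exponent_le hN (by linarith)
    have h2 : (Ideal.absNorm v.asIdeal : ℝ) ^ (1 - 2 * s.re) ≤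
        (Ideal.absNorm v.asIdeal : ℝ) ^ (1 - 2 * a) :=
      Real.rpow_le_rpow_of_exponent_le hN (by linarith)
    exact add_le_add h1 h2
  have h := hsum.hasProdLocallyUniformlyOn_one_add (isOpen_half a) hbound
    (fun v => (continuous_dev (W v) v).continuousOn)
  rw [hasProdLocallyUniformlyOn_iff_tendstoLocallyUniformlyOn] at h
  have hcont : ContinuousOn (fun s => ∏' v : HeightOneSpectrum (𝓞 K), (1 + dev (W v) v s))
      {s : ℂ | a < s.re} := by
    refine h.continuousOn (Frequently.of_forall fun F => ?_)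
    refine continuousOn_finsetProd _ fun v _ => ?_
    exact (continuous_const.add (continuous_dev (W v) v)).continuousOn
  have heq : ∀ s : ℂ, 2 < s.re → ∏' v : HeightOneSpectrum (𝓞 K), factor (W v) v s =
      (∏' v : HeightOneSpectrum (𝓞 K), (1 + dev (W v) v s))⁻¹ := by
    intro s hs
    have hm : Multipliable fun v : HeightOneSpectrum (𝓞 K) => 1 + dev (W v) v s :=
      multipliable_one_add_of_summable (summable_dev W hs)
    have hne : ∏' v : HeightOneSpectrum (𝓞 K), (1 + dev (W v) v s) ≠ 0 :=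
      tprod_one_add_ne_zero_of_summable (fun v => one_add_dev_ne (W v) v hs) (summable_dev W hs)
    rw [← hm.tprod_inv₀ hne]
    exact tprod_congr fun v => factor_eq (W v) v s
  have hne₀ : ∏' v : HeightOneSpectrum (𝓞 K), (1 + dev (W v) v s₀) ≠ 0 :=
    tprod_one_add_ne_zero_of_summable (fun v => one_add_dev_ne (W v) v hs₀') (summable_dev W hs₀')
  have hc : ContinuousAt (fun s => (∏' v : HeightOneSpectrum (𝓞 K), (1 + dev (W v) v s))⁻¹) s₀ :=
    (hcont.continuousAt ((isOpen_half a).mem_nhds ha)).inv₀ hne₀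
  refine (hc.congr ?_).continuousWithinAt
  filter_upwards [(isOpen_half 2).mem_nhds hs₀'] with s hs
  exact (heq s hs).symm

/-- Continuation does not depend on the choice of the minimal models. -/
theorem power_indep (E : WeierstrassCurve K) [E.IsElliptic]
    (W W' : HeightOneSpectrum (𝓞 K) → WeierstrassCurve (𝓞 K))
    (hW : ∀ v, IsMinimalAt E (W v) v) (hW' : ∀ v, IsMinimalAt E (W' v) v) (k : ℕ)
    (h : ∃ f : ℂ → ℂ, MeromorphicOn f univ ∧ ∀ s : ℂ, 2 < s.re →
      f s = (∏' v : HeightOneSpectrum (𝓞 K), factor (W v) v s) ^ k) :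
    ∃ f : ℂ → ℂ, MeromorphicOn f univ ∧ ∀ s : ℂ, 2 < s.re →
      f s = (∏' v : HeightOneSpectrum (𝓞 K), factor (W' v) v s) ^ k := by
  classical
  obtain ⟨f, hfm, hfs⟩ := h
  obtain ⟨S, hS, hΦ⟩ := H39.curves K E
  set T : Finset (HeightOneSpectrum (𝓞 K)) := hS.toFinset with hTdef
  refine ⟨fun s => (∏ v ∈ T, factor (W' v) v s / factor (W v) v s) ^ k * f s, ?_, ?_⟩
  · refine MeromorphicOn.fun_mul (MeromorphicOn.fun_pow ?_ _) hfm
    refine MeromorphicOn.fun_prod fun v _ => ?_
    exact MeromorphicOn.fun_div (factor_mero (W' v) v) (factor_mero (W v) v)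
  · intro s hs
    obtain ⟨hm1, hne1, hp1⟩ := conv K W s hs
    have hR : HasProd (fun v => factor (W' v) v s / factor (W v) v s)
        (∏ v ∈ T, factor (W' v) v s / factor (W v) v s) := by
      refine hasProd_prod_of_ne_finset_one fun v hv => ?_
      rw [hTdef, Set.Finite.mem_toFinset] at hv
      obtain ⟨Φ, hΦ'⟩ := hΦ v hv
      have hmap : E.map (algebraMap K K) = E := WeierstrassCurve.map_id E
      have key : ∀ V : WeierstrassCurve (𝓞 K), IsMinimalAt E V v → factor V v s = Φ _ s :=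
        fun V hV => hΦ' K v V ⟨by
          ext x
          exact Iff.rfl⟩ (by rw [hmap]; exact hV) s
      have h1 := key (W v) (hW v)
      have h2 := key (W' v) (hW' v)
      rw [h1, h2, div_self]
      rw [← h1]
      exact hne1 v
    have hall := hR.mul hm1.hasProd
    have heq : (fun v => factor (W' v) v s / factor (W v) v s * factor (W v) v s) =
        fun v => factor (W' v) v s := by
      funext v
      exact div_mul_cancel₀ _ (hne1 v)
    rw [heq] at hall
    rw [hall.tprod_eq, mul_pow]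
    beta_reduce
    rw [hfs s hs]

/-- If `L ^ (p k)` continues and `L ^ k` does not, some order of the continuation is not divisible
by `p`. -/
theorem branch (E : WeierstrassCurve K) [E.IsElliptic] {p k : ℕ} (hp : 0 < p)
    (hc : PowerContinues E (p * k)) (hb : ¬ PowerContinues E k) :
    ∀ W : HeightOneSpectrum (𝓞 K) → WeierstrassCurve (𝓞 K), (∀ v, IsMinimalAt E (W v) v) →
      ∃ f : ℂ → ℂ, MeromorphicOn f univ ∧
        (∀ s : ℂ, 2 < s.re →
          f s = (∏' v : HeightOneSpectrum (𝓞 K), factor (W v) v s) ^ (p * k)) ∧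
        ∃ (z : ℂ) (n : ℤ), meromorphicOrderAt f z = n ∧ ¬ (p : ℤ) ∣ n := by
  intro W hW
  obtain ⟨f, hfm, hfs⟩ := hc W hW
  refine ⟨f, hfm, hfs, ?_⟩
  by_contra hcon
  push Not at hcon
  apply hb
  intro W' hW'
  apply power_indep E W W' hW hW' k
  have hL0 : ∀ s : ℂ, 2 < s.re → ∏' v : HeightOneSpectrum (𝓞 K), factor (W v) v s ≠ 0 :=
    fun s hs => (conv K W s hs).2.2
  have h52' : (2 : ℝ) < ((5 / 2 : ℝ) : ℂ).re := by
    rw [Complex.ofReal_re]
    norm_num
  have hne : meromorphicOrderAt f ((5 / 2 : ℝ) : ℂ) ≠ ⊤ := by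
    rw [meromorphicOrderAt_ne_top_iff_eventually_ne_zero (hfm _ (mem_univ _))]
    filter_upwards [mem_nhdsWithin_of_mem_nhds ((isOpen_half 2).mem_nhds h52')] with s hs
    rw [hfs s hs]
    exact pow_ne_zero _ (hL0 s hs)
  have hord : ∀ z, meromorphicOrderAt f z ≠ ⊤ := fun z =>
    hfm.meromorphicOrderAt_ne_top_of_isPreconnected isPreconnected_univ (mem_univ _)
      (mem_univ z) hne
  have hdiv : ∀ z, ∃ m : ℤ, meromorphicOrderAt f z = ((p * m : ℤ) : WithTop ℤ) := by
    intro z
    obtain ⟨n, hn⟩ := WithTop.ne_top_iff_exists.1 (hord z)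
    obtain ⟨m, hm⟩ := hcon z n hn.symm
    exact ⟨m, by rw [← hn, hm]⟩
  exact root_ext hfm hp hdiv ((continuousOn_L W).pow k) (fun s hs => pow_ne_zero _ (hL0 s hs))
    (fun s hs => by rw [hfs s hs, ← pow_mul, mul_comm])

end Pool.Agent.MP_0d9be2.H83
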