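import Pool.Agent.Lib.MP_0d9be2_nt.H83.Max

/-!
# One automorphism, or the `p`-th power continues
-/

set_option autoImplicit false

open scoped NumberField Pointwise
open IsDedekindDomain NumberField

namespace Pool.Agent.MP_0d9be2.H83

open Pool.Agent.MP_0d9be2.H36 Pool.Agent.MP_0d9be2.H63 Pool.Agent.MP_0d9be2.H39

section

variable {K : Type} [Field K] [NumberField K]

/-- The restriction from the automorphisms over `F` to `Gal(F M / F)`. -/
noncomputable def toComp (F M : IntermediateField K (AlgebraicClosure K)) [Normal K M] :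
    ↥F.fixingSubgroup →* Gal(H63.comp F M/F) :=
  (AlgEquiv.restrictNormalHom (H63.comp F M)).comp (IntermediateField.fixingSubgroupEquiv F).toMonoidHom

theorem toComp_apply (F M : IntermediateField K (AlgebraicClosure K)) [Normal K M]
    (σ : ↥F.fixingSubgroup) (x : H63.comp F M) :
    ((toComp F M σ x : H63.comp F M) : AlgebraicClosure K) = σ.1 x :=
  AlgEquiv.restrictNormalHom_apply (H63.comp F M) (IntermediateField.fixingSubgroupEquiv F σ) x

theorem toComp_surjective (F M : IntermediateField K (AlgebraicClosure K))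
    [Normal K M] : Function.Surjective (toComp F M) := by
  have hclos : IsAlgClosure F (AlgebraicClosure K) :=
    ⟨inferInstance, Algebra.IsAlgebraic.tower_top (K := K) F⟩
  have hN : Normal F (AlgebraicClosure K) := IsAlgClosure.normal F (AlgebraicClosure K)
  exact (AlgEquiv.restrictNormalHom_surjective (AlgebraicClosure K)).comp
    (IntermediateField.fixingSubgroupEquiv F).surjective

theorem toComp_eq_one (F M : IntermediateField K (AlgebraicClosure K)) [Normal K M]
    (σ : ↥F.fixingSubgroup) : toComp F M σ = 1 ↔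
      (AlgEquiv.restrictNormalHom M : Gal(AlgebraicClosure K/K) →* Gal(M/K)) σ.1 = 1 := by
  constructor
  · intro h
    ext y
    rw [AlgEquiv.restrictNormalHom_apply]
    have h1 := toComp_apply F M σ ⟨y, (le_sup_right : M ≤ F ⊔ M) y.2⟩
    rw [h] at h1
    exact h1.symm
  · intro h
    have h3 : F ⊔ M ≤ IntermediateField.fixedField (Subgroup.zpowers σ.1) := by
      refine sup_le (fun y hy => ?_) (fun y hy => ?_)
      · rw [IntermediateField.mem_fixedField_iff]
        intro τ hτ
        obtain ⟨m, rfl⟩ := Subgroup.mem_zpowers_iff.1 hτ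
        have h4 : σ.1 ∈ MulAction.stabilizer Gal(AlgebraicClosure K/K) y :=
          (IntermediateField.mem_fixingSubgroup_iff _ _).1 σ.2 y hy
        exact Subgroup.zpow_mem _ h4 m
      · rw [IntermediateField.mem_fixedField_iff]
        intro τ hτ
        obtain ⟨m, rfl⟩ := Subgroup.mem_zpowers_iff.1 hτ
        have h4 : σ.1 ∈ MulAction.stabilizer Gal(AlgebraicClosure K/K) y := by
          change σ.1 y = y
          have h7 := AlgEquiv.restrictNormalHom_apply M σ.1 ⟨y, hy⟩
          rw [h] at h7
          exact h7.symm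
        exact Subgroup.zpow_mem _ h4 m
    ext x
    rw [toComp_apply]
    have h9 := h3 x.2
    rw [IntermediateField.mem_fixedField_iff] at h9
    exact h9 _ (Subgroup.mem_zpowers _)

theorem hyper_of_comp {p : ℕ} (hp : p.Prime) (F M : IntermediateField K (AlgebraicClosure K))
    [Normal K M] (h : IsPHyper p Gal(H63.comp F M/F)) : IsPHyper p (res M F) := by
  refine IsPHyper.of_ker_le hp (toComp F M)
    ((AlgEquiv.restrictNormalHom M : Gal(AlgebraicClosure K/K) →* Gal(M/K)).subgroupMap
      F.fixingSubgroup) (MonoidHom.subgroupMap_surjective _ _) ?_ ?_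
  · intro σ hσ
    rw [MonoidHom.mem_ker] at hσ ⊢
    apply Subtype.ext
    exact (toComp_eq_one F M σ).1 hσ
  · exact IsPHyper.of_injective hp (toComp F M).range.subtype
      (toComp F M).range.subtype_injective h

theorem comp_of_hyper {p : ℕ} (hp : p.Prime)
    (F M : IntermediateField K (AlgebraicClosure K))
    [Normal K M] (h : IsPHyper p (res M F)) : IsPHyper p Gal(H63.comp F M/F) := by
  refine IsPHyper.of_ker_le hp
    ((AlgEquiv.restrictNormalHom M : Gal(AlgebraicClosure K/K) →* Gal(M/K)).comp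
      F.fixingSubgroup.subtype) (toComp F M) (toComp_surjective F M) ?_ ?_
  · intro σ hσ
    rw [MonoidHom.mem_ker] at hσ ⊢
    exact (toComp_eq_one F M σ).2 hσ
  · refine IsPHyper.of_le hp ?_ h
    rintro _ ⟨σ, rfl⟩
    exact ⟨σ.1, σ.2, rfl⟩

theorem cyclic_of_comp (F M : IntermediateField K (AlgebraicClosure K))
    [Normal K M] (h : IsCyclic Gal(H63.comp F M/F)) : IsCyclic (res M F) := by
  refine cyclic_of_ker_le (toComp F M)
    ((AlgEquiv.restrictNormalHom M : Gal(AlgebraicClosure K/K) →* Gal(M/K)).subgroupMap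
      F.fixingSubgroup) (MonoidHom.subgroupMap_surjective _ _) ?_ ?_
  · intro σ hσ
    rw [MonoidHom.mem_ker] at hσ ⊢
    apply Subtype.ext
    exact (toComp_eq_one F M σ).1 hσ
  · exact isCyclic_of_injective (toComp F M).range.subtype
      (toComp F M).range.subtype_injective

/-- The absolute Galois group of the maximal field is pro-`p`-hyperelementary. -/
theorem hyper_max {p : ℕ} (hp : p.Prime) {S : Set ℕ}
    (hSmul : ∀ a ∈ S, ∀ b ∈ S, a * b ∈ S) (hSp : ∀ k : ℕ, ¬ p ∣ k → k ∈ S)
    {E : WeierstrassCurve K} [E.IsElliptic] {X : IntermediateField K (AlgebraicClosure K)}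
    (hX : PBS S E X)
    (hmax : ∀ Y : IntermediateField K (AlgebraicClosure K), X ≤ Y → PBS S E Y → Y ≤ X)
    (M : IntermediateField K (AlgebraicClosure K)) [FiniteDimensional K M] [IsGalois K M] :
    IsPHyper p (res M X) := by
  obtain ⟨F₁, h1, h2, h3⟩ := proper_good hmax M
  obtain ⟨F, hF₁, hFX, nfF, hbad⟩ := hX F₁ h1 h2
  obtain ⟨hres, hgood⟩ := h3 F hF₁ hFX
  rw [← hres]
  apply hyper_of_comp hp
  have nf2 : NumberField (H63.comp F M) := H63.numberField_comp F M
  have gal2 : IsGalois F (H63.comp F M) := H63.isGalois_comp F M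
  obtain ⟨m', T, n, hm', hT', hrel⟩ := solomon_p p hp Gal(H63.comp F M/F)
  by_cases hall : ∀ H ∈ T, H ≠ ⊤
  · exfalso
    obtain ⟨k, hk, hkc⟩ := power_of_relation_set primes curves_S H7.minimal F (H63.comp F M)
      (E.map (algebraMap K F)) T n m' p hp hrel hm' S hSmul hSp (fun H hH => by
        obtain ⟨k, hk, hkc⟩ := hgood H (hall H hH)
        exact ⟨k, hk, hkc nf2⟩)
    exact hbad k hk hkc
  · push Not at hall
    obtain ⟨H, hHT, hH⟩ := hall
    subst hH
    exact IsPHyper.of_injective hp
      (Subgroup.topEquiv (G := Gal(H63.comp F M/F))).symm.toMonoidHom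
      (Subgroup.topEquiv (G := Gal(H63.comp F M/F))).symm.injective (hT' _ hHT)

/-- One automorphism, or the `p`-th power continues. -/
theorem dich {p : ℕ} (hp : p.Prime) {S : Set ℕ}
    (hSmul : ∀ a ∈ S, ∀ b ∈ S, a * b ∈ S) (hSp : ∀ k : ℕ, ¬ p ∣ k → k ∈ S)
    {E : WeierstrassCurve K} [E.IsElliptic] {X : IntermediateField K (AlgebraicClosure K)}
    (hX : PBS S E X)
    (hmax : ∀ Y : IntermediateField K (AlgebraicClosure K), X ≤ Y → PBS S E Y → Y ≤ X) :
    (∃ σ : Gal(AlgebraicClosure K/K), ∀ x, σ x = x ↔ x ∈ X) ∨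
      ∃ F₁ : IntermediateField K (AlgebraicClosure K), FiniteDimensional K F₁ ∧ F₁ ≤ X ∧
        ∀ (F : IntermediateField K (AlgebraicClosure K)) [NumberField F], F₁ ≤ F → F ≤ X →
          ∃ k ∈ S, PowerContinues (E.map (algebraMap K F)) (p * k) := by
  by_cases hcyc : ∀ M : IntermediateField K (AlgebraicClosure K), FiniteDimensional K M →
      ∀ _ : IsGalois K M, IsCyclic (res M X)
  · left
    obtain ⟨M, -, hMmono, hMfin, hMgal, hMex⟩ := exists_exhaustion K ⊥
    have := hMfin
    have := hMgal
    exact exists_sigma M hMmono hMex hMfin hMgal X fun n => hcyc (M n) (hMfin n) (hMgal n)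
  · right
    push Not at hcyc
    obtain ⟨M, hMfin, hMgal, hnc⟩ := hcyc
    obtain ⟨F₁, h1, h2, h3⟩ := proper_good hmax M
    refine ⟨F₁, h1, h2, fun F nfF hF₁ hFX => ?_⟩
    obtain ⟨hres, hgood⟩ := h3 F hF₁ hFX
    have nf2 : NumberField (H63.comp F M) := H63.numberField_comp F M
    have gal2 : IsGalois F (H63.comp F M) := H63.isGalois_comp F M
    have hyp : IsPHyper p Gal(H63.comp F M/F) := by
      apply comp_of_hyper hp
      rw [hres]
      exact hyper_max hp hSmul hSp hX hmax M
    have hnc' : ¬ IsCyclic Gal(H63.comp F M/F) := by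
      intro h
      apply hnc
      rw [← hres]
      exact cyclic_of_comp F M h
    obtain ⟨T, n, hT, hrel⟩ := rel_p hp hyp hnc'
    choose! k hk hkc using hgood
    refine ⟨∏ H ∈ T, k H, ?_, ?_⟩
    · have h1 : (1 : ℕ) ∈ S := hSp 1 (fun h => hp.one_lt.ne' (Nat.dvd_one.1 h))
      exact Finset.prod_induction k (fun x => x ∈ S) (fun a b ha hb => hSmul a ha b hb) h1
        fun H hH => hk H (hT H hH)
    · exact power_prod primes curves_S H7.minimal F (H63.comp F M) (E.map (algebraMap K F)) T n p
        hrel k fun H hH => hkc H (hT H hH) nf2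

end

end Pool.Agent.MP_0d9be2.H83
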