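import Pool.Agent.Lib.MP_0d9be2_nt.H39.SigmaC

/-!
# Subfields between `F` and `F M`
-/

set_option autoImplicit false

open scoped NumberField Pointwise
open IsDedekindDomain NumberField

namespace Pool.Agent.MP_0d9be2.H83

open Pool.Agent.MP_0d9be2.H36 Pool.Agent.MP_0d9be2.H63 Pool.Agent.MP_0d9be2.H39

section

variable {K : Type} [Field K] [NumberField K]

/-- The restriction of the automorphisms which fix `Z` to `M`. -/
noncomputable abbrev res (M Z : IntermediateField K (AlgebraicClosure K)) [Normal K M] :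
    Subgroup Gal(M/K) :=
  Z.fixingSubgroup.map
    (AlgEquiv.restrictNormalHom M : Gal(AlgebraicClosure K/K) →* Gal(M/K))

omit [NumberField K] in
/-- An automorphism which fixes `Z ⊓ M` agrees on `M` with one which fixes `Z`. -/
theorem mem_res [CharZero K] (M Z : IntermediateField K (AlgebraicClosure K))
    [FiniteDimensional K M] [Normal K M] (σ : Gal(AlgebraicClosure K/K))
    (hσ : ∀ x ∈ Z ⊓ M, σ x = x) :
    (AlgEquiv.restrictNormalHom M : Gal(AlgebraicClosure K/K) →* Gal(M/K)) σ ∈ res M Z := by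
  rw [← IntermediateField.fixingSubgroup_fixedField (res M Z),
    IntermediateField.mem_fixingSubgroup_iff]
  intro y hy
  rw [IntermediateField.mem_fixedField_iff] at hy
  apply Subtype.ext
  rw [AlgEquiv.restrictNormalHom_apply]
  apply hσ
  refine ⟨?_, y.2⟩
  change (y : AlgebraicClosure K) ∈ Z
  rw [← InfiniteGalois.fixedField_fixingSubgroup Z, IntermediateField.mem_fixedField_iff]
  intro ρ hρ
  have h1 := hy _ ⟨ρ, hρ, rfl⟩
  rw [← AlgEquiv.restrictNormalHom_apply M ρ y, h1]

omit [NumberField K] in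
theorem res_eq [CharZero K] (M Z Z' : IntermediateField K (AlgebraicClosure K))
    [FiniteDimensional K M] [Normal K M] (hZ : Z ≤ Z') (hM : Z' ⊓ M ≤ Z) :
    res M Z = res M Z' := by
  apply le_antisymm
  · rintro _ ⟨σ, hσ, rfl⟩
    refine mem_res M Z' σ fun x hx => ?_
    exact (IntermediateField.mem_fixingSubgroup_iff _ _).1 hσ x (hM hx)
  · exact Subgroup.map_mono (IntermediateField.fixingSubgroup_le hZ)

omit [NumberField K] in
/-- A field between `F` and `F M` is generated by `F` and its intersection with `M`. -/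
theorem eq_sup [CharZero K] (F M Z : IntermediateField K (AlgebraicClosure K))
    [FiniteDimensional K M] [Normal K M] (h1 : F ≤ Z) (h2 : Z ≤ F ⊔ M) :
    Z = F ⊔ (Z ⊓ M) := by
  apply le_antisymm
  · intro x hx
    rw [← InfiniteGalois.fixedField_fixingSubgroup (F ⊔ (Z ⊓ M)),
      IntermediateField.mem_fixedField_iff]
    intro σ hσ
    have hσ' := (IntermediateField.mem_fixingSubgroup_iff _ _).1 hσ
    obtain ⟨ρ, hρ, hρσ⟩ := mem_res M Z σ fun x hx => hσ' x
      ((le_sup_right : Z ⊓ M ≤ F ⊔ (Z ⊓ M)) hx)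
    have hρ' := (IntermediateField.mem_fixingSubgroup_iff _ _).1 hρ
    -- `ρ⁻¹ σ` fixes `F` and `M`
    have h3 : F ⊔ M ≤ IntermediateField.fixedField (Subgroup.zpowers (ρ⁻¹ * σ)) := by
      refine sup_le (fun y hy => ?_) (fun y hy => ?_)
      · rw [IntermediateField.mem_fixedField_iff]
        intro τ hτ
        obtain ⟨m, rfl⟩ := Subgroup.mem_zpowers_iff.1 hτ
        have h4 : ρ⁻¹ * σ ∈ MulAction.stabilizer Gal(AlgebraicClosure K/K) y := by
          change (ρ⁻¹ * σ) y = y
          rw [AlgEquiv.mul_apply, hσ' y ((le_sup_left : F ≤ F ⊔ (Z ⊓ M)) hy)]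
          have h5 : ρ y = y := hρ' y (h1 hy)
          have h6 : ρ⁻¹ (ρ y) = y := by
            rw [← AlgEquiv.mul_apply, inv_mul_cancel, AlgEquiv.one_apply]
          rwa [h5] at h6
        exact Subgroup.zpow_mem _ h4 m
      · rw [IntermediateField.mem_fixedField_iff]
        intro τ hτ
        obtain ⟨m, rfl⟩ := Subgroup.mem_zpowers_iff.1 hτ
        have h4 : ρ⁻¹ * σ ∈ MulAction.stabilizer Gal(AlgebraicClosure K/K) y := by
          change (ρ⁻¹ * σ) y = y
          rw [AlgEquiv.mul_apply]
          have h7 := AlgEquiv.restrictNormalHom_apply M σ ⟨y, hy⟩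
          rw [← hρσ, AlgEquiv.restrictNormalHom_apply] at h7
          have h8 : ρ y = σ y := h7
          rw [← h8, ← AlgEquiv.mul_apply, inv_mul_cancel, AlgEquiv.one_apply]
        exact Subgroup.zpow_mem _ h4 m
    have h9 := h3 (h2 hx)
    rw [IntermediateField.mem_fixedField_iff] at h9
    have h10 : (ρ⁻¹ * σ) x = x := h9 _ (Subgroup.mem_zpowers _)
    rw [AlgEquiv.mul_apply] at h10
    have h11 : ρ (ρ⁻¹ (σ x)) = σ x := by
      rw [← AlgEquiv.mul_apply, mul_inv_cancel, AlgEquiv.one_apply]
    rw [h10, hρ' x hx] at h11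
    exact h11.symm
  · exact sup_le h1 inf_le_left

omit [NumberField K] in
/-- A finite extension inside a compositum lies in a finite part of it. -/
theorem exists_finite_le_sup [CharZero K] (X M Z : IntermediateField K (AlgebraicClosure K))
    [FiniteDimensional K Z] (hZ : Z ≤ X ⊔ M) :
    ∃ F₁ : IntermediateField K (AlgebraicClosure K), FiniteDimensional K F₁ ∧ F₁ ≤ X ∧
      Z ≤ F₁ ⊔ M := by
  classical
  have key : ∀ x ∈ X ⊔ M, ∃ F₁ : IntermediateField K (AlgebraicClosure K),
      FiniteDimensional K F₁ ∧ F₁ ≤ X ∧ x ∈ F₁ ⊔ M := by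
    intro x hx
    have h1 : X ⊔ M = IntermediateField.adjoin K ((X : Set (AlgebraicClosure K)) ∪ M) := by
      rw [IntermediateField.adjoin_union, IntermediateField.adjoin_self,
        IntermediateField.adjoin_self]
    rw [h1] at hx
    obtain ⟨t, ht, hxt⟩ := IntermediateField.exists_finset_of_mem_adjoin hx
    refine ⟨IntermediateField.adjoin K ((t.filter (· ∈ X) : Finset (AlgebraicClosure K)) :
      Set (AlgebraicClosure K)), ?_, ?_, ?_⟩
    · exact IntermediateField.finiteDimensional_adjoin fun x _ => Algebra.IsIntegral.isIntegral x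
    · rw [IntermediateField.adjoin_le_iff]
      intro y hy
      rw [Finset.mem_coe, Finset.mem_filter] at hy
      exact hy.2
    · have h2 : IntermediateField.adjoin K (t : Set (AlgebraicClosure K)) ≤
          IntermediateField.adjoin K ((t.filter (· ∈ X) : Finset (AlgebraicClosure K)) :
            Set (AlgebraicClosure K)) ⊔ M := by
        rw [IntermediateField.adjoin_le_iff]
        intro y hy
        rcases ht hy with h3 | h3
        · refine (le_sup_left : _ ≤ IntermediateField.adjoin K
            ((t.filter (· ∈ X) : Finset (AlgebraicClosure K)) : Set (AlgebraicClosure K)) ⊔ M) ?_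
          apply IntermediateField.subset_adjoin
          rw [Finset.mem_coe, Finset.mem_filter]
          exact ⟨hy, h3⟩
        · exact (le_sup_right : M ≤ _ ⊔ M) h3
      exact h2 hxt
  obtain ⟨θ, hθ⟩ := Field.exists_primitive_element K Z
  obtain ⟨F₁, h1, h2, h3⟩ := key (θ : AlgebraicClosure K) (hZ θ.2)
  refine ⟨F₁, h1, h2, fun x hx => ?_⟩
  have h4 : (⟨x, hx⟩ : Z) ∈ IntermediateField.adjoin K {θ} := by
    rw [hθ]
    trivial
  have h5 : IntermediateField.adjoin K {θ} ≤ (F₁ ⊔ M).comap Z.val := by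
    rw [IntermediateField.adjoin_le_iff]
    rintro _ rfl
    exact h3
  exact h5 h4

end

end Pool.Agent.MP_0d9be2.H83
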