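import Pool.Agent.Lib.MP_0d9be2_nt.H36.SolomonP

/-!
# A relation between permutation characters

For a finite `p`-hyperelementary group `G` which is not cyclic, the constant `p` is an integral
combination of the permutation characters `g ↦ #Fix(g on G/H)` with `H` a proper subgroup.
-/

set_option autoImplicit false

namespace Pool.Agent.MP_0d9be2.H83

open Pool.Agent.Lib.MP_0d9be2_nt Pool.Agent.MP_0d9be2.H36 MulAction

/-- The span of the permutation characters of the proper subgroups. -/
def PR (G : Type*) [Group G] : Submodule ℤ (G → ℤ) :=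
  Submodule.span ℤ {f | ∃ H : Subgroup G, H ≠ ⊤ ∧ f = fun g : G => fixc (G ⧸ H) g}

theorem mem_PR_of_gset {G : Type*} [Group G] (X : Type*) [MulAction G X] [Finite X]
    (hX : ∀ x : X, stabilizer G x ≠ ⊤) : (fun g : G => fixc X g) ∈ PR G := by
  classical
  have : Finite (orbitRel.Quotient G X) := Quotient.finite _
  have := Fintype.ofFinite (orbitRel.Quotient G X)
  have h : (fun g : G => fixc X g) =
      ∑ ω : orbitRel.Quotient G X, (fun g : G => fixc (G ⧸ stabilizer G ω.out) g) := by
    funext g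
    rw [fixc_eq_sum, Finset.sum_apply]
  rw [h]
  exact Submodule.sum_mem _ fun ω _ => Submodule.subset_span ⟨_, hX _, rfl⟩

theorem mem_PR_quotient {G : Type*} [Group G] (H : Subgroup G) (hH : H ≠ ⊤) :
    (fun g : G => fixc (G ⧸ H) g) ∈ PR G := Submodule.subset_span ⟨H, hH, rfl⟩

open Classical in
theorem fixc_normal {G : Type*} [Group G] (N : Subgroup G) [N.Normal] (g : G) :
    fixc (G ⧸ N) g = if g ∈ N then (N.index : ℤ) else 0 := by
  unfold fixc
  split_ifs with h
  · congr 1
    have h1 : ∀ x : G ⧸ N, g • x = x := by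
      intro x
      induction x using QuotientGroup.induction_on with
      | H a =>
        change ((g * a : G) : G ⧸ N) = (a : G ⧸ N)
        rw [eq_comm, QuotientGroup.eq, ← mul_assoc]
        have := (inferInstance : N.Normal).conj_mem g h a⁻¹
        rwa [inv_inv] at this
    rw [Nat.card_congr (Equiv.subtypeUnivEquiv h1)]
    rfl
  · have h1 : IsEmpty {x : G ⧸ N // g • x = x} := by
      refine ⟨fun ⟨x, hx⟩ => h ?_⟩
      induction x using QuotientGroup.induction_on with
      | H a =>
        have h2 : ((g * a : G) : G ⧸ N) = (a : G ⧸ N) := hx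
        rw [eq_comm, QuotientGroup.eq, ← mul_assoc] at h2
        have h3 := (inferInstance : N.Normal).conj_mem _ h2 a
        have h4 : a * (a⁻¹ * g * a) * a⁻¹ = g := by group
        rwa [h4] at h3
    rw [Nat.card_of_isEmpty]
    rfl

/-- From membership in the span to a relation. -/
theorem exists_rel {G : Type*} [Group G] {f : G → ℤ} (hf : f ∈ PR G) :
    ∃ (T : Finset (Subgroup G)) (n : Subgroup G → ℤ), (∀ H ∈ T, H ≠ ⊤) ∧
      ∀ g : G, ∑ H ∈ T, n H * (Nat.card {x : G ⧸ H // g • x = x} : ℤ) = f g := by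
  classical
  induction hf using Submodule.span_induction with
  | mem f hf =>
    obtain ⟨H, hH, rfl⟩ := hf
    refine ⟨{H}, fun _ => 1, ?_, ?_⟩
    · intro K hK
      rw [Finset.mem_singleton] at hK
      subst hK
      exact hH
    · intro g
      simp [fixc]
  | zero => exact ⟨∅, fun _ => 0, by simp, by simp⟩
  | add f f' _ _ ih ih' =>
    obtain ⟨T, n, hT, hn⟩ := ih
    obtain ⟨T', n', hT', hn'⟩ := ih'
    refine ⟨T ∪ T', fun H => (if H ∈ T then n H else 0) + (if H ∈ T' then n' H else 0), ?_, ?_⟩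
    · intro H hH
      rcases Finset.mem_union.1 hH with h1 | h1
      · exact hT H h1
      · exact hT' H h1
    · intro g
      simp only [add_mul, Finset.sum_add_distrib, ite_mul, zero_mul]
      rw [Finset.sum_ite_mem, Finset.sum_ite_mem, Finset.union_inter_cancel_left,
        Finset.union_inter_cancel_right, hn, hn']
      rfl
  | smul c f _ ih =>
    obtain ⟨T, n, hT, hn⟩ := ih
    refine ⟨T, fun H => c * n H, hT, ?_⟩
    intro g
    simp only [mul_assoc]
    rw [← Finset.mul_sum, hn]
    rfl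

/-! ### Two subgroups of index `p` -/

theorem exists_hom {G : Type*} [Group G] {p : ℕ} [Fact p.Prime] (B : Subgroup G) [B.Normal]
    (hB : B.index = p) : ∃ φ : G →* Multiplicative (ZMod p), φ.ker = B := by
  have h1 : Nat.card (G ⧸ B) = p := hB
  have h2 : Nat.card (Multiplicative (ZMod p)) = p := by
    rw [Nat.card_congr Multiplicative.toAdd, Nat.card_zmod]
  let e := mulEquivOfPrimeCardEq h1 h2
  refine ⟨e.toMonoidHom.comp (QuotientGroup.mk' B), ?_⟩
  ext g
  rw [MonoidHom.mem_ker]
  change e (QuotientGroup.mk' B g) = 1 ↔ g ∈ B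
  rw [map_eq_one_iff e e.injective, QuotientGroup.mk'_apply, QuotientGroup.eq_one_iff]

theorem index_ker {G : Type*} [Group G] {p : ℕ} [hp : Fact p.Prime]
    (φ : G →* Multiplicative (ZMod p)) (hφ : φ.ker ≠ ⊤) : φ.ker.index = p := by
  rw [Subgroup.index_ker]
  have h2 : Nat.card (Multiplicative (ZMod p)) = p := by
    rw [Nat.card_congr Multiplicative.toAdd, Nat.card_zmod]
  have h1 : Nat.card φ.range ∣ p := by
    conv_rhs => rw [← h2]
    exact Subgroup.card_subgroup_dvd_card _
  rcases (Nat.dvd_prime hp.out).1 h1 with h | h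
  · exfalso
    apply hφ
    rw [Subgroup.card_eq_one] at h
    rw [eq_top_iff]
    intro g _
    rw [MonoidHom.mem_ker]
    have : φ g ∈ φ.range := ⟨g, rfl⟩
    rw [h] at this
    exact Subgroup.mem_bot.1 this
  · exact h

theorem rel_two {G : Type*} [Group G] [Finite G] {p : ℕ} [hp : Fact p.Prime]
    (B₁ B₂ : Subgroup G) [B₁.Normal] [B₂.Normal] (h₁ : B₁.index = p) (h₂ : B₂.index = p)
    (hne : B₁ ≠ B₂) : (fun _ : G => (p : ℤ)) ∈ PR G := by
  classical
  obtain ⟨φ₁, e₁⟩ := exists_hom B₁ h₁
  obtain ⟨φ₂, e₂⟩ := exists_hom B₂ h₂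
  have hp1 : p ≠ 1 := hp.out.one_lt.ne'
  have t₁ : B₁ ≠ ⊤ := by
    rintro rfl
    rw [Subgroup.index_top] at h₁
    exact hp1 h₁.symm
  have t₂ : B₂ ≠ ⊤ := by
    rintro rfl
    rw [Subgroup.index_top] at h₂
    exact hp1 h₂.symm
  -- an element of `B₂` outside `B₁`
  obtain ⟨a, ha2, ha1⟩ : ∃ a, a ∈ B₂ ∧ a ∉ B₁ := by
    by_contra hcon
    push Not at hcon
    have hle : B₂ ≤ B₁ := hcon
    apply hne
    refine (Subgroup.eq_of_le_of_card_ge hle ?_).symm
    have c1 := Subgroup.card_mul_index B₁
    have c2 := Subgroup.card_mul_index B₂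
    rw [h₁] at c1
    rw [h₂, ← c1] at c2
    exact (Nat.eq_of_mul_eq_mul_right hp.out.pos c2).symm.le
  let ψ : ZMod p → (G →* Multiplicative (ZMod p)) := fun t => φ₁ * φ₂ ^ t.val
  have hψ : ∀ t, (ψ t).ker ≠ ⊤ := by
    intro t htop
    have h : a ∈ (ψ t).ker := by
      rw [htop]
      trivial
    rw [MonoidHom.mem_ker] at h
    have h3 : φ₁ a * φ₂ a ^ t.val = 1 := h
    have h4 : φ₂ a = 1 := by
      rw [← MonoidHom.mem_ker, e₂]
      exact ha2
    rw [h4, one_pow, mul_one] at h3
    apply ha1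
    rw [← e₁, MonoidHom.mem_ker]
    exact h3
  have key : (fun _ : G => (p : ℤ)) =
      ∑ t : ZMod p, (fun g : G => fixc (G ⧸ (ψ t).ker) g) + (fun g : G => fixc (G ⧸ B₂) g) -
        (fun g : G => fixc ((G ⧸ B₁) × (G ⧸ B₂)) g) := by
    funext g
    rw [Pi.sub_apply, Pi.add_apply, Finset.sum_apply, fixc_prod]
    have hsum : ∑ t : ZMod p, fixc (G ⧸ (ψ t).ker) g =
        ∑ t : ZMod p, if (ψ t) g = 1 then (p : ℤ) else 0 := by
      refine Finset.sum_congr rfl fun t _ => ?_
      rw [fixc_normal, index_ker _ (hψ t)]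
      simp only [MonoidHom.mem_ker]
    rw [hsum, fixc_normal, fixc_normal, h₁, h₂]
    have m1 : g ∈ B₁ ↔ φ₁ g = 1 := by rw [← e₁, MonoidHom.mem_ker]
    have m2 : g ∈ B₂ ↔ φ₂ g = 1 := by rw [← e₂, MonoidHom.mem_ker]
    have hψg : ∀ t : ZMod p, (ψ t) g = 1 ↔ (φ₁ g).toAdd + t * (φ₂ g).toAdd = 0 := by
      intro t
      have h5 : (ψ t) g = φ₁ g * φ₂ g ^ t.val := rfl
      rw [h5, ← toAdd_eq_zero, toAdd_mul, toAdd_pow, nsmul_eq_mul, ZMod.natCast_zmod_val]
    simp only [hψg]
    by_cases hb : φ₂ g = 1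
    · have hb' : (φ₂ g).toAdd = 0 := by rw [hb]; rfl
      rw [if_pos (m2.2 hb)]
      simp only [hb', mul_zero, add_zero]
      by_cases ha : φ₁ g = 1
      · have ha' : (φ₁ g).toAdd = 0 := by rw [ha]; rfl
        rw [if_pos (m1.2 ha)]
        simp [ha', ZMod.card]
      · have ha' : (φ₁ g).toAdd ≠ 0 := fun h => ha (by
          rw [← toAdd_eq_zero]
          exact h)
        rw [if_neg (fun h => ha (m1.1 h))]
        simp [ha']
    · have hb' : (φ₂ g).toAdd ≠ 0 := fun h => hb (by
        rw [← toAdd_eq_zero]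
        exact h)
      rw [if_neg (fun h => hb (m2.1 h)), mul_zero, add_zero, sub_zero]
      have h6 : ∀ t : ZMod p, (φ₁ g).toAdd + t * (φ₂ g).toAdd = 0 ↔
          t = -(φ₁ g).toAdd * ((φ₂ g).toAdd)⁻¹ := by
        intro t
        constructor
        · intro h
          have h7 : t * (φ₂ g).toAdd = -(φ₁ g).toAdd := by linear_combination h
          rw [← h7, mul_inv_cancel_right₀ hb']
        · rintro rfl
          rw [inv_mul_cancel_right₀ hb']
          ring
      simp only [h6]
      simp
  rw [key]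
  refine Submodule.sub_mem _ (Submodule.add_mem _ (Submodule.sum_mem _ fun t _ =>
    mem_PR_quotient _ (hψ t)) (mem_PR_quotient _ t₂)) ?_
  refine mem_PR_of_gset _ ?_
  rintro ⟨x, y⟩ htop
  apply t₁
  rw [eq_top_iff]
  intro g _
  induction x using QuotientGroup.induction_on with
  | H b =>
    have h7 : (b * g * b⁻¹) ∈ stabilizer G (((b : G) : G ⧸ B₁), y) := by
      rw [htop]
      trivial
    have h8 : (b * g * b⁻¹) • ((b : G) : G ⧸ B₁) = ((b : G) : G ⧸ B₁) := congrArg Prod.fst h7
    have h9 : ((b * g * b⁻¹ * b : G) : G ⧸ B₁) = ((b : G) : G ⧸ B₁) := h8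
    rw [eq_comm, QuotientGroup.eq] at h9
    have h10 : b⁻¹ * (b * g * b⁻¹ * b) = g := by group
    rwa [h10] at h9

/-! ### The quotient has only one subgroup of index `p` -/

theorem rel_one {G : Type*} [Group G] [Finite G] {p : ℕ} [hp : Fact p.Prime]
    (C : Subgroup G) [hC : C.Normal] (hcyc : IsCyclic C) (hcop : ¬ p ∣ Nat.card C) (k : ℕ)
    (hk : C.index = p ^ k) (B : Subgroup G) [B.Normal] (hB : B.index = p)
    (huniq : ∀ g : G, g ∉ B → Subgroup.zpowers (g : G ⧸ C) = ⊤) (hG : ¬ IsCyclic G) :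
    (fun _ : G => (p : ℤ)) ∈ PR G := by
  classical
  have hcard : Nat.card G = p ^ k * Nat.card C := by
    rw [← hk, mul_comm, Subgroup.card_mul_index]
  have hfac : (Nat.card G).factorization p = k := by
    rw [hcard, Nat.factorization_mul (pow_pos hp.out.pos k).ne' Nat.card_pos.ne',
      Finsupp.add_apply, Nat.factorization_eq_zero_of_not_dvd hcop, add_zero,
      Nat.factorization_pow, Finsupp.smul_apply, hp.out.factorization_self, smul_eq_mul, mul_one]
  have hBtop : B ≠ ⊤ := by
    rintro rfl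
    rw [Subgroup.index_top] at hB
    exact hp.out.one_lt.ne hB
  -- the order of `g` modulo `C`
  have hord : ∀ g : G, g ∉ B → p ^ k ∣ orderOf g := by
    intro g hg
    have h1 : orderOf (g : G ⧸ C) = p ^ k := by
      rw [← Nat.card_zpowers, huniq g hg, Subgroup.card_top]
      exact hk
    rw [← h1]
    exact orderOf_map_dvd (QuotientGroup.mk' C) g
  -- the Sylow subgroup of `g`
  have hsyl : ∀ g : G, g ∉ B → ∃ h : G, h ∈ Subgroup.zpowers g ∧ orderOf h = p ^ k := by
    intro g hg
    obtain ⟨m, hm⟩ := hord g hg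
    refine ⟨g ^ m, Subgroup.mem_zpowers_iff.2 ⟨m, by rw [zpow_natCast]⟩, ?_⟩
    have hm0 : 0 < m := by
      rcases Nat.eq_zero_or_pos m with h | h
      · rw [h, mul_zero] at hm
        exact absurd hm (orderOf_pos g).ne'
      · exact h
    rw [orderOf_pow, hm, Nat.gcd_eq_right (Dvd.intro_left _ rfl),
      Nat.mul_div_cancel _ hm0]
  -- exactly one fixed Sylow subgroup
  have hfix : ∀ g : G, g ∉ B → fixc (Sylow p G) g = 1 := by
    intro g hg
    obtain ⟨h, hhg, hh⟩ := hsyl g hg
    have hcz : Nat.card (Subgroup.zpowers h) = p ^ k := by rw [Nat.card_zpowers, hh]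
    let P₀ : Sylow p G := Sylow.ofCard (Subgroup.zpowers h) (by rw [hcz, hfac])
    have hP₀ : (P₀ : Subgroup G) = Subgroup.zpowers h := rfl
    have hcomm : Commute g h := by
      obtain ⟨j, hj⟩ := Subgroup.mem_zpowers_iff.1 hhg
      rw [← hj]
      exact (Commute.refl g).zpow_right j
    unfold fixc
    have : Nat.card {P : Sylow p G // g • P = P} = 1 := by
      rw [Nat.card_eq_one_iff_unique]
      refine ⟨⟨?_⟩, ⟨⟨P₀, ?_⟩⟩⟩
      · have huq : ∀ P : Sylow p G, g • P = P → Subgroup.zpowers h = (P : Subgroup G) := by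
          intro P hP
          rw [Sylow.smul_eq_iff_mem_normalizer] at hP
          have h2 : Subgroup.zpowers h ≤ Subgroup.normalizer (P : Set G) := by
            rw [Subgroup.zpowers_le]
            obtain ⟨j, hj⟩ := Subgroup.mem_zpowers_iff.1 hhg
            rw [← hj]
            exact Subgroup.zpow_mem _ hP j
          have h3 : IsPGroup p (Subgroup.zpowers h) := IsPGroup.of_card hcz
          have h4 := h3.inf_normalizer_sylow P
          have h5 : Subgroup.zpowers h ⊓ Subgroup.normalizer (P : Set G) =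
            Subgroup.zpowers h := inf_eq_left.2 h2
          have h6 : Subgroup.zpowers h ≤ (P : Subgroup G) := by
            rw [← h5, h4]
            exact inf_le_right
          refine Subgroup.eq_of_le_of_card_ge h6 ?_
          rw [hcz, P.card_eq_multiplicity, hfac]
        rintro ⟨P, hP⟩ ⟨P', hP'⟩
        apply Subtype.ext
        apply Sylow.ext
        change (P : Subgroup G) = (P' : Subgroup G)
        rw [← huq P hP, ← huq P' hP']
      · rw [Sylow.smul_eq_iff_mem_normalizer]
        have h7 : (P₀ : Set G) = (Subgroup.zpowers h : Set G) := rfl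
        rw [h7, Subgroup.mem_set_normalizer_iff]
        intro x
        have h8 : ∀ x ∈ Subgroup.zpowers h, g * x * g⁻¹ = x := by
          intro x hx
          obtain ⟨j, hj⟩ := Subgroup.mem_zpowers_iff.1 hx
          rw [← hj, (hcomm.zpow_right j).eq, mul_inv_cancel_right]
        constructor
        · intro hx
          rw [h8 x hx]
          exact hx
        · intro hx
          have h9 := h8 _ hx
          have h10 : g * x * g⁻¹ = x := by
            have h11 : g * (g * x * g⁻¹) * g⁻¹ = g * x * g⁻¹ := h9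
            have h12 := mul_right_cancel h11
            exact mul_left_cancel h12
          rw [h10] at hx
          exact hx
    rw [this]
    rfl
  -- no Sylow subgroup is normal
  have hnn : ∀ P : Sylow p G, stabilizer G P ≠ ⊤ := by
    intro P htop
    rw [Sylow.stabilizer_eq_normalizer] at htop
    have htop' : Subgroup.normalizer ((P : Subgroup G) : Set G) = ⊤ := htop
    rw [Subgroup.normalizer_eq_top_iff] at htop'
    apply hG
    obtain ⟨c, hc⟩ := hcyc.exists_generator
    obtain ⟨g, hgB⟩ : ∃ g : G, g ∉ B := by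
      by_contra hcon
      push Not at hcon
      exact hBtop (eq_top_iff.2 fun g _ => hcon g)
    obtain ⟨h, hhg, hh⟩ := hsyl g hgB
    have hcz : Nat.card (Subgroup.zpowers h) = p ^ k := by rw [Nat.card_zpowers, hh]
    have hhP : h ∈ (P : Subgroup G) := by
      have h3 : IsPGroup p (Subgroup.zpowers h) := IsPGroup.of_card hcz
      obtain ⟨Q, hQ⟩ := h3.exists_le_sylow
      have : Subsingleton (Sylow p G) := by
        have := P.unique_of_normal htop'
        infer_instance
      rw [Subsingleton.elim P Q]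
      exact hQ (Subgroup.mem_zpowers h)
    have hdis : Disjoint C (P : Subgroup G) := by
      rw [Subgroup.disjoint_def]
      intro x hxC hxP
      have h1 : orderOf x ∣ Nat.card C := by
        rw [← Subgroup.orderOf_mk x hxC]
        exact orderOf_dvd_natCard _
      obtain ⟨j, hj⟩ := (IsPGroup.iff_orderOf.1 P.isPGroup') ⟨x, hxP⟩
      rw [Subgroup.orderOf_mk] at hj
      rcases Nat.eq_zero_or_pos j with h0 | h0
      · rw [h0, pow_zero] at hj
        exact orderOf_eq_one_iff.1 hj
      · exfalso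
        apply hcop
        refine (dvd_pow_self p h0.ne').trans ?_
        rw [← hj]
        exact h1
    have hcomm : Commute (c : G) h :=
      Subgroup.commute_of_normal_of_disjoint C P hC htop' hdis c h c.2 hhP
    have hoc : orderOf (c : G) = Nat.card C := by
      rw [Subgroup.orderOf_coe]
      exact orderOf_eq_card_of_forall_mem_zpowers hc
    have hcp : Nat.Coprime (orderOf (c : G)) (orderOf h) := by
      rw [hoc, hh]
      exact ((Nat.Prime.coprime_iff_not_dvd hp.out).2 hcop).symm.pow_right k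
    refine isCyclic_of_orderOf_eq_card ((c : G) * h) ?_
    rw [hcomm.orderOf_mul_eq_mul_orderOf_of_coprime hcp, hoc, hh, hcard, mul_comm]
  have key : (fun _ : G => (p : ℤ)) =
      (p : ℤ) • (fun g : G => fixc (Sylow p G) g) -
        (fun g : G => fixc (Sylow p G × (G ⧸ B)) g) + (fun g : G => fixc (G ⧸ B) g) := by
    funext g
    rw [Pi.add_apply, Pi.sub_apply, Pi.smul_apply, fixc_prod, fixc_normal, hB, smul_eq_mul]
    by_cases hg : g ∈ B
    · rw [if_pos hg]
      ring
    · rw [if_neg hg, hfix g hg]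
      ring
  rw [key]
  refine Submodule.add_mem _ (Submodule.sub_mem _ (Submodule.smul_mem _ _
    (mem_PR_of_gset _ hnn)) (mem_PR_of_gset _ ?_)) (mem_PR_quotient _ hBtop)
  rintro ⟨P, y⟩ htop
  apply hnn P
  rw [eq_top_iff]
  intro g _
  have h7 : g ∈ stabilizer G (P, y) := by
    rw [htop]
    trivial
  exact congrArg Prod.fst h7

/-- The relation. -/
theorem rel_p {G : Type*} [Group G] [Finite G] {p : ℕ} (hp : p.Prime) (hG : IsPHyper p G)
    (hc : ¬ IsCyclic G) : ∃ (T : Finset (Subgroup G)) (n : Subgroup G → ℤ), (∀ H ∈ T, H ≠ ⊤) ∧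
      ∀ g : G, ∑ H ∈ T, n H * (Nat.card {x : G ⧸ H // g • x = x} : ℤ) = p := by
  have hpf : Fact p.Prime := ⟨hp⟩
  obtain ⟨C, hCn, hcyc, hdvd, k, hk⟩ := hG
  suffices h : (fun _ : G => (p : ℤ)) ∈ PR G by
    obtain ⟨T, n, hT, hn⟩ := exists_rel h
    exact ⟨T, n, hT, hn⟩
  have hQ : Nat.card (G ⧸ C) = p ^ k := hk
  rcases Nat.eq_zero_or_pos k with h0 | h0
  · exfalso
    apply hc
    rw [h0, pow_zero, Subgroup.index_eq_one] at hk
    subst hk
    exact isCyclic_of_surjective (⊤ : Subgroup G).subtype (fun x => ⟨⟨x, trivial⟩, rfl⟩)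
  have hmin : (Nat.card (G ⧸ C)).minFac = p := by
    rw [hQ, Nat.Prime.pow_minFac hp h0.ne']
  -- subgroups of the quotient
  have hnorm : ∀ M : Subgroup (G ⧸ C), Nat.card M = p ^ (k - 1) →
      M.index = p ∧ M.Normal := by
    intro M hM
    have h1 : M.index = p := by
      have h2 := Subgroup.card_mul_index M
      rw [hM, hQ] at h2
      have h3 : p ^ k = p ^ (k - 1) * p := by
        rw [← pow_succ]
        congr 1
        omega
      rw [h3] at h2
      exact Nat.eq_of_mul_eq_mul_left (pow_pos hp.pos _) h2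
    exact ⟨h1, Subgroup.normal_of_index_eq_minFac_card (by rw [h1, hmin])⟩
  obtain ⟨M, hM⟩ := Sylow.exists_subgroup_card_pow_prime (G := G ⧸ C) p (n := k - 1)
    (by rw [hQ]; exact pow_dvd_pow p (Nat.sub_le k 1))
  obtain ⟨hMi, hMn⟩ := hnorm M hM
  have hidx : ∀ M : Subgroup (G ⧸ C), (M.comap (QuotientGroup.mk' C)).index = M.index :=
    fun M => Subgroup.index_comap_of_surjective M (QuotientGroup.mk'_surjective C)
  by_cases hex : ∃ M' : Subgroup (G ⧸ C), Nat.card M' = p ^ (k - 1) ∧ M' ≠ M
  · obtain ⟨M', hM', hne⟩ := hex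
    obtain ⟨hMi', hMn'⟩ := hnorm M' hM'
    have n1 : (M.comap (QuotientGroup.mk' C)).Normal := hMn.comap _
    have n2 : (M'.comap (QuotientGroup.mk' C)).Normal := hMn'.comap _
    refine rel_two (M'.comap (QuotientGroup.mk' C)) (M.comap (QuotientGroup.mk' C))
      (by rw [hidx, hMi']) (by rw [hidx, hMi]) ?_
    intro heq
    exact hne (Subgroup.comap_injective (QuotientGroup.mk'_surjective C) heq)
  · push Not at hex
    have n1 : (M.comap (QuotientGroup.mk' C)).Normal := hMn.comap _
    refine rel_one C hcyc hdvd k hk (M.comap (QuotientGroup.mk' C)) (by rw [hidx, hMi]) ?_ hc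
    intro g hg
    by_contra hcon
    apply hg
    rw [Subgroup.mem_comap, QuotientGroup.mk'_apply]
    -- the cyclic subgroup generated by `g` lies in a subgroup of index `p`
    have hdv : Nat.card (Subgroup.zpowers (g : G ⧸ C)) ∣ p ^ k := by
      rw [← hQ]
      exact Subgroup.card_subgroup_dvd_card (Subgroup.zpowers (g : G ⧸ C))
    obtain ⟨j, hjk, hj⟩ := (Nat.dvd_prime_pow hp).1 hdv
    have hjk' : j ≤ k - 1 := by
      by_contra hlt
      have hjk2 : j = k := by omega
      apply hcon
      rw [← Subgroup.card_eq_iff_eq_top, hj, hjk2, hQ]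
    obtain ⟨M', hM', hle⟩ := Sylow.exists_subgroup_card_pow_prime_le (G := G ⧸ C) p
      (n := j) (m := k - 1) (by rw [hQ]; exact pow_dvd_pow p (Nat.sub_le k 1))
      (Subgroup.zpowers (g : G ⧸ C)) hj hjk'
    rw [← hex M' hM']
    exact hle (Subgroup.mem_zpowers _)

end Pool.Agent.MP_0d9be2.H83
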