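import Pool.Agent.Lib.MP_0d9be2_nt.H39.FinalC
import Pool.Agent.Lib.MP_0d9be2_nt.H83.Galois
import Pool.Agent.Lib.MP_0d9be2_nt.H83.Rel

/-!
# A maximal field over which the continuation fails
-/

set_option autoImplicit false

open scoped NumberField Pointwise
open IsDedekindDomain NumberField

namespace Pool.Agent.MP_0d9be2.H83

open Pool.Agent.MP_0d9be2.H36 Pool.Agent.MP_0d9be2.H63 Pool.Agent.MP_0d9be2.H39

section

variable {K : Type} [Field K] [NumberField K]

/-- The bad number fields are cofinal in `X`. -/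
def PBS (S : Set ℕ) (E : WeierstrassCurve K) (X : IntermediateField K (AlgebraicClosure K)) :
    Prop :=
  ∀ F : IntermediateField K (AlgebraicClosure K), FiniteDimensional K F → F ≤ X →
    ∃ F' : IntermediateField K (AlgebraicClosure K), F ≤ F' ∧ F' ≤ X ∧ BadAt S E F'

/-- A maximal field in which the bad number fields are cofinal. -/
theorem exists_maxS (S : Set ℕ) (E : WeierstrassCurve K)
    (X₀ : IntermediateField K (AlgebraicClosure K))
    (h₀ : PBS S E X₀) : ∃ X : IntermediateField K (AlgebraicClosure K), X₀ ≤ X ∧ PBS S E X ∧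
      ∀ Y : IntermediateField K (AlgebraicClosure K), X ≤ Y → PBS S E Y → Y ≤ X := by
  obtain ⟨X, hX, hXm⟩ := zorn_le_nonempty₀ {X | PBS S E X} (fun c hc hch y hy => by
    refine ⟨sSup c, ?_, fun z hz => le_sSup hz⟩
    intro F hF hFc
    obtain ⟨θ, hθ⟩ := Field.exists_primitive_element K F
    have hθc : (θ : AlgebraicClosure K) ∈ sSup c := hFc θ.2
    have hne : Nonempty c := ⟨⟨y, hy⟩⟩
    rw [sSup_eq_iSup', ← SetLike.mem_coe, IntermediateField.coe_iSup_of_directed
      hch.directedOn.directed_val, Set.mem_iUnion] at hθc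
    obtain ⟨⟨Y, hY⟩, hθY⟩ := hθc
    have hFY : F ≤ Y := by
      intro x hx
      have h1 : (⟨x, hx⟩ : F) ∈ IntermediateField.adjoin K {θ} := by
        rw [hθ]
        trivial
      have h2 : IntermediateField.adjoin K {θ} ≤ Y.comap F.val := by
        rw [IntermediateField.adjoin_le_iff]
        rintro _ rfl
        exact hθY
      exact h2 h1
    obtain ⟨F', h1, h2, h3⟩ := hc hY F hF hFY
    exact ⟨F', h1, h2.trans (le_sSup hY), h3⟩) X₀ h₀
  exact ⟨X, hX, hXm.1, fun Y hXY hY => hXm.2 hY hXY⟩

/-- Above a maximal field everything is good. -/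
theorem good_above {S : Set ℕ} {E : WeierstrassCurve K}
    {X : IntermediateField K (AlgebraicClosure K)}
    (hmax : ∀ Y : IntermediateField K (AlgebraicClosure K), X ≤ Y → PBS S E Y → Y ≤ X)
    (M : IntermediateField K (AlgebraicClosure K)) [FiniteDimensional K M] (hM : ¬ M ≤ X) :
    ∃ F₁ : IntermediateField K (AlgebraicClosure K), FiniteDimensional K F₁ ∧ F₁ ≤ X ∧
      ∀ F : IntermediateField K (AlgebraicClosure K), F₁ ≤ F → F ≤ X → ¬ BadAt S E (F ⊔ M) := by
  have h1 : ¬ PBS S E (X ⊔ M) := fun h => hM (le_sup_right.trans (hmax _ le_sup_left h))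
  unfold PBS at h1
  push Not at h1
  obtain ⟨F₂, h2, h3, h4⟩ := h1
  obtain ⟨F₁, h5, h6, h7⟩ := exists_finite_le_sup X M F₂ h3
  refine ⟨F₁, h5, h6, fun F hF hFX => ?_⟩
  exact h4 (F ⊔ M) (h7.trans (sup_le_sup_right hF M)) (sup_le_sup_right hFX M)

omit [NumberField K] in
/-- Finitely many finite extensions can be treated at once. -/
theorem exists_common {X : IntermediateField K (AlgebraicClosure K)} {ι : Type*} [Finite ι]
    (P : ι → IntermediateField K (AlgebraicClosure K) → Prop)
    (h : ∀ i, ∃ F₁ : IntermediateField K (AlgebraicClosure K), FiniteDimensional K F₁ ∧ F₁ ≤ X ∧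
      ∀ F : IntermediateField K (AlgebraicClosure K), F₁ ≤ F → F ≤ X → P i F) :
    ∃ F₁ : IntermediateField K (AlgebraicClosure K), FiniteDimensional K F₁ ∧ F₁ ≤ X ∧
      ∀ F : IntermediateField K (AlgebraicClosure K), F₁ ≤ F → F ≤ X → ∀ i, P i F := by
  choose F₁ h1 h2 h3 using h
  refine ⟨⨆ i, F₁ i, IntermediateField.finiteDimensional_iSup_of_finite, iSup_le h2, ?_⟩
  intro F hF hFX i
  exact h3 i F ((le_iSup F₁ i).trans hF) hFX

/-- For all large number fields `F` in the maximal field, everything strictly between `F` and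
`F M` is good, and the Galois group is that of the maximal field. -/
theorem proper_good {S : Set ℕ} {E : WeierstrassCurve K}
    {X : IntermediateField K (AlgebraicClosure K)}
    (hmax : ∀ Y : IntermediateField K (AlgebraicClosure K), X ≤ Y → PBS S E Y → Y ≤ X)
    (M : IntermediateField K (AlgebraicClosure K)) [FiniteDimensional K M] [IsGalois K M] :
    ∃ F₁ : IntermediateField K (AlgebraicClosure K), FiniteDimensional K F₁ ∧ F₁ ≤ X ∧
      ∀ (F : IntermediateField K (AlgebraicClosure K)) [NumberField F], F₁ ≤ F → F ≤ X →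
        res M F = res M X ∧
        ∀ H : Subgroup Gal(H63.comp F M/F), H ≠ ⊤ → ∃ k ∈ S, ∀ _ : NumberField (H63.comp F M),
          PowerContinues ((E.map (algebraMap K F)).map
            (algebraMap F (IntermediateField.fixedField H))) k := by
  -- the finitely many subfields of `M`
  have hfin : Finite (IntermediateField K M) :=
    Field.finite_intermediateField_of_exists_primitive_element K M
      (Field.exists_primitive_element K M)
  obtain ⟨F₁, h1, h2, h3⟩ := exists_common (X := X)
    (fun (L : IntermediateField K M) (F : IntermediateField K (AlgebraicClosure K)) =>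
      ¬ (L.map M.val ≤ X) → ¬ BadAt S E (F ⊔ L.map M.val)) (fun L => by
    by_cases hL : L.map M.val ≤ X
    · exact ⟨⊥, inferInstance, bot_le, fun F _ _ h => absurd hL h⟩
    · have : FiniteDimensional K (L.map M.val) :=
        (IntermediateField.equivMap L M.val).toLinearEquiv.finiteDimensional
      obtain ⟨F₁, h1, h2, h3⟩ := good_above hmax (L.map M.val) hL
      exact ⟨F₁, h1, h2, fun F hF hFX _ => h3 F hF hFX⟩)
  have hXM : FiniteDimensional K ↥(X ⊓ M) :=
    FiniteDimensional.of_injective
      (IntermediateField.inclusion (inf_le_right : X ⊓ M ≤ M)).toLinearMap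
      (IntermediateField.inclusion (inf_le_right : X ⊓ M ≤ M)).injective
  refine ⟨F₁ ⊔ (X ⊓ M), IntermediateField.finiteDimensional_sup _ _,
    sup_le h2 inf_le_left, ?_⟩
  intro F nfF hF hFX
  have hF1 : F₁ ≤ F := le_sup_left.trans hF
  have hF2 : X ⊓ M ≤ F := le_sup_right.trans hF
  refine ⟨res_eq M F X hFX hF2, fun H hH => ?_⟩
  have nf2 : NumberField (H63.comp F M) := H63.numberField_comp F M
  have gal2 : IsGalois F (H63.comp F M) := H63.isGalois_comp F M
  -- the fixed field inside the algebraic closure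
  let X' : IntermediateField F (AlgebraicClosure K) :=
    (IntermediateField.fixedField H).map (H63.comp F M).val
  let Z : IntermediateField K (AlgebraicClosure K) := X'.restrictScalars K
  let e : IntermediateField.fixedField H ≃ₐ[F] X' := IntermediateField.equivMap _ (H63.comp F M).val
  have hFZ : F ≤ Z := fun x hx => X'.algebraMap_mem ⟨x, hx⟩
  have hZM : Z ≤ F ⊔ M := by
    rintro _ ⟨y, _, rfl⟩
    exact y.2
  have hZeq := eq_sup F M Z hFZ hZM
  -- the subfield of `M`
  let L : IntermediateField K M := (Z ⊓ M).comap M.val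
  have hL : L.map M.val = Z ⊓ M := by
    apply le_antisymm
    · rintro _ ⟨y, hy, rfl⟩
      exact hy
    · intro y hy
      exact ⟨⟨y, hy.2⟩, hy, rfl⟩
  have hnX : ¬ (L.map M.val ≤ X) := by
    rw [hL]
    intro hle
    apply hH
    have h4 : Z ⊓ M ≤ F := (le_inf hle inf_le_right).trans hF2
    have h5 : Z = F := by
      rw [hZeq]
      exact sup_eq_left.2 h4
    have h6 : IntermediateField.fixedField H = ⊥ := by
      rw [eq_bot_iff]
      intro y hy
      have h7 : (y : AlgebraicClosure K) ∈ Z := ⟨y, hy, rfl⟩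
      rw [h5] at h7
      rw [IntermediateField.mem_bot]
      exact ⟨⟨y, h7⟩, Subtype.ext rfl⟩
    rw [← IntermediateField.fixingSubgroup_fixedField H, h6, IntermediateField.fixingSubgroup_bot]
  have hgood := h3 F hF1 hFX L hnX
  rw [hL, ← hZeq] at hgood
  have nfX : NumberField X' := NumberField.of_ringEquiv _ _ e.toRingEquiv
  have nfZ : NumberField Z := nfX
  have hgood' : ¬ Bad S (E.map (algebraMap K Z)) := fun h => hgood ⟨nfZ, h⟩
  unfold Bad at hgood'
  push Not at hgood'
  obtain ⟨k, hk, hkc⟩ := hgood'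
  refine ⟨k, hk, fun _ => ?_⟩
  let e' : Z ≃+* IntermediateField.fixedField H := e.symm.toRingEquiv
  have h1 := powerContinues_map e' _ k hkc
  have h2 : (E.map (algebraMap K Z)).map e'.toRingHom =
      (E.map (algebraMap K F)).map (algebraMap F (IntermediateField.fixedField H)) := by
    rw [WeierstrassCurve.map_map, WeierstrassCurve.map_map]
    congr 1
    refine RingHom.ext fun x => ?_
    exact e.symm.commutes (algebraMap K F x)
  rw [h2] at h1
  exact h1

end

end Pool.Agent.MP_0d9be2.H83
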