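import Mathlib

/-!
# Roots of meromorphic functions

If `g` is meromorphic on the plane, all its orders are divisible by `p`, and `g = ℓ ^ p` on a right
half plane, where `ℓ` is continuous without zeros, then `ℓ` has a meromorphic continuation.
-/

set_option autoImplicit false

open Set Filter Topology Metric

namespace Pool.Agent.MP_0d9be2.H83

/-- A holomorphic function without zeros on a ball has a root. -/
theorem root_ball {v : ℂ → ℂ} {R : ℝ} (hR : 0 < R) (hv : DifferentiableOn ℂ v (ball 0 R))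
    (hv0 : ∀ z ∈ ball (0 : ℂ) R, v z ≠ 0) {p : ℕ} (hp : 0 < p) :
    ∃ w : ℂ → ℂ, DifferentiableOn ℂ w (ball 0 R) ∧ ∀ z ∈ ball (0 : ℂ) R, w z ^ p = v z := by
  have hd : DifferentiableOn ℂ (fun z => deriv v z / v z) (ball 0 R) :=
    (hv.deriv isOpen_ball).div hv hv0
  obtain ⟨F, hF⟩ := hd.isExactOn_ball
  have hG : DifferentiableOn ℂ (fun z => v z * Complex.exp (-F z)) (ball 0 R) := by
    intro z hz
    have h1 : DifferentiableAt ℂ v z := (hv z hz).differentiableAt (isOpen_ball.mem_nhds hz)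
    exact (h1.mul (hF z hz).differentiableAt.neg.cexp).differentiableWithinAt
  have hG' : EqOn (deriv fun z => v z * Complex.exp (-F z)) 0 (ball 0 R) := by
    intro z hz
    have h1 : HasDerivAt v (deriv v z) z :=
      ((hv z hz).differentiableAt (isOpen_ball.mem_nhds hz)).hasDerivAt
    have h2 := (h1.mul (hF z hz).neg.cexp).deriv
    have h3 : (fun z => v z * Complex.exp (-F z)) = v * fun z => Complex.exp (-F z) := rfl
    rw [h3]
    refine h2.trans ?_
    have := hv0 z hz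
    simp only [Pi.zero_apply, Pi.neg_apply]
    field_simp
    ring
  have h0 : (0 : ℂ) ∈ ball (0 : ℂ) R := mem_ball_self hR
  have hconst : ∀ z ∈ ball (0 : ℂ) R, v z * Complex.exp (-F z) = v 0 * Complex.exp (-F 0) :=
    fun z hz => isOpen_ball.is_const_of_deriv_eq_zero (convex_ball _ _).isPreconnected hG hG' hz h0
  obtain ⟨d, hd⟩ := IsAlgClosed.exists_pow_nat_eq (v 0 * Complex.exp (-F 0)) hp
  refine ⟨fun z => d * Complex.exp (F z / p), ?_, ?_⟩
  · intro z hz
    exact ((hF z hz).differentiableAt.div_const _).cexp.const_mul _ |>.differentiableWithinAt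
  · intro z hz
    have hp' : (p : ℂ) ≠ 0 := by exact_mod_cast hp.ne'
    rw [mul_pow, hd, ← hconst z hz, ← Complex.exp_nat_mul, mul_div_cancel₀ _ hp', mul_assoc,
      ← Complex.exp_add, neg_add_cancel, Complex.exp_zero, mul_one]

theorem eventually_of_codiscrete {U : Set ℂ} {z : ℂ} (hU : U ∈ 𝓝 z) {f g : ℂ → ℂ}
    (h : f =ᶠ[codiscreteWithin U] g) : f =ᶠ[𝓝[≠] z] g := by
  have h1 := mem_codiscreteWithin_iff_forall_mem_nhdsNE.1 h z (mem_of_mem_nhds hU)
  filter_upwards [h1, mem_nhdsWithin_of_mem_nhds hU] with s hs1 hs2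
  rcases hs1 with hs1 | hs1
  · exact hs1
  · exact absurd hs2 hs1

/-- Roots on a ball. -/
theorem root_mero {g : ℂ → ℂ} (hg : MeromorphicOn g univ) {p : ℕ} (hp : 0 < p)
    (hdiv : ∀ z, ∃ m : ℤ, meromorphicOrderAt g z = ((p * m : ℤ) : WithTop ℤ)) {R : ℝ}
    (hR : 0 < R) :
    ∃ h : ℂ → ℂ, MeromorphicOn h (ball 0 R) ∧
      ∀ z ∈ ball (0 : ℂ) R, (fun s => h s ^ p) =ᶠ[𝓝[≠] z] g := by
  classical
  choose m hm using hdiv
  have hgU : MeromorphicOn g (closedBall 0 R) := fun z _ => hg z (mem_univ z)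
  have hfin := (MeromorphicOn.divisor g (closedBall (0 : ℂ) R)).finiteSupport
    (isCompact_closedBall 0 R)
  obtain ⟨v, hva, hv0, hgv⟩ := hgU.extract_zeros_poles (fun u => by
    rw [hm]
    exact WithTop.coe_ne_top) hfin
  have hvd : DifferentiableOn ℂ v (ball 0 R) := fun z hz =>
    (hva z (ball_subset_closedBall hz)).differentiableAt.differentiableWithinAt
  obtain ⟨w, hw, hwv⟩ := root_ball hR hvd (fun z hz => hv0 ⟨z, ball_subset_closedBall hz⟩) hp
  set D := MeromorphicOn.divisor g (closedBall (0 : ℂ) R) with hD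
  have hDm : ∀ u ∈ hfin.toFinset, D u = p * m u := by
    intro u hu
    have hu' : u ∈ closedBall (0 : ℂ) R := by
      have := (D.supportWithinDomain) (by simpa using hu)
      exact this
    rw [hD, MeromorphicOn.divisor_apply hgU hu', hm]
    rfl
  refine ⟨fun s => (∏ u ∈ hfin.toFinset, (s - u) ^ m u) * w s, ?_, ?_⟩
  · refine MeromorphicOn.fun_mul ?_ ?_
    · refine MeromorphicOn.fun_prod fun u _ => ?_
      refine MeromorphicOn.fun_zpow ?_ _
      exact fun z _ => (MeromorphicAt.id z).sub (MeromorphicAt.const u z)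
    · exact (hw.analyticOnNhd isOpen_ball).meromorphicOn
  · intro z hz
    have h1 := eventually_of_codiscrete (z := z)
      (mem_of_superset (isOpen_ball.mem_nhds hz) ball_subset_closedBall) hgv
    have h2 : ∀ᶠ s in 𝓝[≠] z, s ∈ ball (0 : ℂ) R :=
      mem_nhdsWithin_of_mem_nhds (isOpen_ball.mem_nhds hz)
    have h3 : (∏ᶠ u, (fun x : ℂ => x - u) ^ D u) =
        ∏ u ∈ hfin.toFinset, (fun x : ℂ => x - u) ^ D u := by
      refine finprod_eq_prod_of_mulSupport_subset _ ?_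
      intro u hu
      rw [Function.mem_mulSupport] at hu
      simp only [Finite.coe_toFinset, Function.mem_support]
      intro h0
      apply hu
      rw [h0, zpow_zero]
    filter_upwards [h1, h2] with s hs1 hs2
    rw [hs1, Pi.smul_apply', h3, Finset.prod_apply, smul_eq_mul, mul_pow, hwv s hs2,
      ← Finset.prod_pow]
    congr 1
    refine Finset.prod_congr rfl fun u hu => ?_
    rw [Pi.pow_apply, hDm u hu, mul_comm (p : ℤ) (m u), zpow_mul, zpow_natCast]

/-- Roots on a ball which agree with a given root in a half plane. -/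
theorem root_match {g ℓ : ℂ → ℂ} (hg : MeromorphicOn g univ) {p : ℕ} (hp : 0 < p)
    (hdiv : ∀ z, ∃ m : ℤ, meromorphicOrderAt g z = ((p * m : ℤ) : WithTop ℤ))
    (hℓ : ContinuousOn ℓ {s | 2 < s.re}) (hℓ0 : ∀ s : ℂ, 2 < s.re → ℓ s ≠ 0)
    (hgℓ : ∀ s : ℂ, 2 < s.re → g s = ℓ s ^ p) {R : ℝ} (hR : 3 ≤ R) :
    ∃ h : ℂ → ℂ, MeromorphicOn h (ball 0 R) ∧
      ∀ s ∈ ball (0 : ℂ) R, 2 < s.re → h s = ℓ s := by
  obtain ⟨h₀, hm₀, hh₀⟩ := root_mero hg hp hdiv (R := R) (by linarith)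
  set h := toMeromorphicNFOn h₀ (ball 0 R) with hh
  have hnf : MeromorphicNFOn h (ball 0 R) := meromorphicNFOn_toMeromorphicNFOn h₀ _
  have hhp : ∀ z ∈ ball (0 : ℂ) R, (fun s => h s ^ p) =ᶠ[𝓝[≠] z] g := by
    intro z hz
    have h1 := hm₀.toMeromorphicNFOn_eq_self_on_nhdsNE hz
    filter_upwards [h1, hh₀ z hz] with s hs1 hs2
    have hs3 : h s = h₀ s := hs1
    change h s ^ p = g s
    rw [hs3]
    exact hs2
  set V : Set ℂ := ball (0 : ℂ) R ∩ {s | 2 < s.re} with hV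
  have hopen : IsOpen {s : ℂ | 2 < s.re} := isOpen_lt continuous_const Complex.continuous_re
  have hVo : IsOpen V := isOpen_ball.inter hopen
  have hVc : Convex ℝ V := (convex_ball _ _).inter (convex_halfSpace_re_gt 2)
  have hgc : ∀ z ∈ V, ContinuousAt g z := by
    intro z hz
    have h1 : ContinuousAt (fun s => ℓ s ^ p) z :=
      ((hℓ z hz.2).continuousAt (hopen.mem_nhds hz.2)).pow p
    refine h1.congr ?_
    filter_upwards [hopen.mem_nhds hz.2] with s hs
    exact (hgℓ s hs).symm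
  -- the order of `h` is zero on `V`
  have hord : ∀ z ∈ V, meromorphicOrderAt h z = 0 := by
    intro z hz
    have h1 : meromorphicOrderAt g z = 0 := by
      rw [← tendsto_ne_zero_iff_meromorphicOrderAt_eq_zero (hg z (mem_univ z))]
      refine ⟨g z, ?_, ?_⟩
      · rw [hgℓ z hz.2]
        exact pow_ne_zero _ (hℓ0 z hz.2)
      · exact (hgc z hz).tendsto.mono_left nhdsWithin_le_nhds
    have h2 : meromorphicOrderAt (fun s => h s ^ p) z = 0 := by
      rw [meromorphicOrderAt_congr (hhp z hz.1), h1]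
    have h3 := fun_meromorphicOrderAt_pow (n := p) (hnf hz.1).meromorphicAt
    rw [h3] at h2
    have h4 : meromorphicOrderAt h z ≠ ⊤ := by
      intro h5
      rw [h5] at h2
      have : (p : WithTop ℤ) * ⊤ = ⊤ := by
        exact WithTop.mul_top (by exact_mod_cast hp.ne')
      rw [this] at h2
      exact WithTop.top_ne_zero h2
    lift meromorphicOrderAt h z to ℤ using h4 with n hn
    have h6 : ((p * n : ℤ) : WithTop ℤ) = 0 := by
      rw [← h2]
      push_cast
      rfl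
    have h7 : (p : ℤ) * n = 0 := by exact_mod_cast h6
    rcases mul_eq_zero.1 h7 with h8 | h8
    · exact absurd h8 (by exact_mod_cast hp.ne')
    · rw [h8]
      rfl
  have han : ∀ z ∈ V, AnalyticAt ℂ h z := fun z hz =>
    (hnf hz.1).meromorphicOrderAt_nonneg_iff_analyticAt.1 (hord z hz).ge
  have hpow : ∀ z ∈ V, h z ^ p = ℓ z ^ p := by
    intro z hz
    rw [← hgℓ z hz.2]
    have h1 : Tendsto (fun s => h s ^ p) (𝓝[≠] z) (𝓝 (h z ^ p)) :=
      ((han z hz).continuousAt.pow p).tendsto.mono_left nhdsWithin_le_nhds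
    have h2 : Tendsto (fun s => h s ^ p) (𝓝[≠] z) (𝓝 (g z)) := by
      refine Tendsto.congr' (hhp z hz.1).symm ?_
      exact (hgc z hz).tendsto.mono_left nhdsWithin_le_nhds
    exact tendsto_nhds_unique h1 h2
  -- the ratio is constant
  have h52 : ((5 / 2 : ℝ) : ℂ) ∈ V := by
    refine ⟨?_, ?_⟩
    · rw [mem_ball_zero_iff, Complex.norm_real, Real.norm_eq_abs, abs_of_pos (by norm_num)]
      linarith
    · change (2 : ℝ) < ((5 / 2 : ℝ) : ℂ).re
      rw [Complex.ofReal_re]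
      norm_num
  have hfinp : {x : ℂ | x ^ p = 1}.Finite := by
    have : {x : ℂ | x ^ p = 1} ⊆ ((Polynomial.nthRoots p (1 : ℂ)).toFinset : Set ℂ) := by
      intro x hx
      rw [Finset.mem_coe, Multiset.mem_toFinset, Polynomial.mem_nthRoots hp]
      exact hx
    exact (Finset.finite_toSet _).subset this
  have hcont : ContinuousOn (fun z => h z / ℓ z) V := by
    intro z hz
    exact (han z hz).continuousAt.continuousWithinAt.div
      ((hℓ z hz.2).mono inter_subset_right) (hℓ0 z hz.2)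
  have hmaps : MapsTo (fun z => h z / ℓ z) V {x : ℂ | x ^ p = 1} := by
    intro z hz
    change (h z / ℓ z) ^ p = 1
    rw [div_pow, hpow z hz, div_self (pow_ne_zero _ (hℓ0 z hz.2))]
  have hconst : ∀ z ∈ V, h z / ℓ z = h ((5 / 2 : ℝ) : ℂ) / ℓ ((5 / 2 : ℝ) : ℂ) := fun z hz =>
    hVc.isPreconnected.constant_of_mapsTo hfinp.isDiscrete hcont hmaps hz h52
  set c : ℂ := h ((5 / 2 : ℝ) : ℂ) / ℓ ((5 / 2 : ℝ) : ℂ) with hc
  have hc0 : c ≠ 0 := by
    have h1 : c ^ p = 1 := hmaps h52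
    intro h0
    rw [h0, zero_pow hp.ne'] at h1
    exact zero_ne_one h1
  refine ⟨fun s => c⁻¹ * h s, ?_, ?_⟩
  · exact MeromorphicOn.fun_mul (fun z _ => MeromorphicAt.const _ z) hnf.meromorphicOn
  · intro s hs hs2
    have h1 := hconst s ⟨hs, hs2⟩
    change c⁻¹ * h s = ℓ s
    have h2 := hℓ0 s hs2
    rw [← h1]
    have h3 : h s ≠ 0 := by
      intro h4
      apply hc0
      rw [← h1, h4, zero_div]
    field_simp

/-- The identity theorem for two continuations. -/
theorem ident {h₁ h₂ ℓ : ℂ → ℂ} {r R : ℝ} (hr : 3 ≤ r) (hrR : r ≤ R)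
    (m₁ : MeromorphicOn h₁ (ball 0 r)) (m₂ : MeromorphicOn h₂ (ball 0 R))
    (e₁ : ∀ s ∈ ball (0 : ℂ) r, 2 < s.re → h₁ s = ℓ s)
    (e₂ : ∀ s ∈ ball (0 : ℂ) R, 2 < s.re → h₂ s = ℓ s) {z : ℂ} (hz : z ∈ ball (0 : ℂ) r) :
    h₁ =ᶠ[𝓝[≠] z] h₂ := by
  have m₂' : MeromorphicOn h₂ (ball 0 r) := fun z hz => m₂ z (ball_subset_ball hrR hz)
  have hd : MeromorphicOn (fun s => h₁ s - h₂ s) (ball 0 r) := fun z hz =>
    (m₁ z hz).sub (m₂' z hz)
  have hopen : IsOpen {s : ℂ | 2 < s.re} := isOpen_lt continuous_const Complex.continuous_re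
  have h52 : ((5 / 2 : ℝ) : ℂ) ∈ ball (0 : ℂ) r := by
    rw [mem_ball_zero_iff, Complex.norm_real, Real.norm_eq_abs, abs_of_pos (by norm_num)]
    linarith
  have h52' : (2 : ℝ) < ((5 / 2 : ℝ) : ℂ).re := by
    rw [Complex.ofReal_re]
    norm_num
  have htop : meromorphicOrderAt (fun s => h₁ s - h₂ s) ((5 / 2 : ℝ) : ℂ) = ⊤ := by
    rw [meromorphicOrderAt_eq_top_iff]
    filter_upwards [mem_nhdsWithin_of_mem_nhds (isOpen_ball.mem_nhds h52),
      mem_nhdsWithin_of_mem_nhds (hopen.mem_nhds h52')] with s hs1 hs2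
    rw [e₁ s hs1 hs2, e₂ s (ball_subset_ball hrR hs1) hs2, sub_self]
  have hz' : meromorphicOrderAt (fun s => h₁ s - h₂ s) z = ⊤ := by
    by_contra hne
    exact hd.meromorphicOrderAt_ne_top_of_isPreconnected (convex_ball _ _).isPreconnected hz h52
      hne htop
  rw [meromorphicOrderAt_eq_top_iff] at hz'
  filter_upwards [hz'] with s hs
  exact sub_eq_zero.1 hs

/-- If all orders of `g = ℓ ^ p` are divisible by `p`, then `ℓ` continues. -/
theorem root_ext {g ℓ : ℂ → ℂ} (hg : MeromorphicOn g univ) {p : ℕ} (hp : 0 < p)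
    (hdiv : ∀ z, ∃ m : ℤ, meromorphicOrderAt g z = ((p * m : ℤ) : WithTop ℤ))
    (hℓ : ContinuousOn ℓ {s | 2 < s.re}) (hℓ0 : ∀ s : ℂ, 2 < s.re → ℓ s ≠ 0)
    (hgℓ : ∀ s : ℂ, 2 < s.re → g s = ℓ s ^ p) :
    ∃ h : ℂ → ℂ, MeromorphicOn h univ ∧ ∀ s : ℂ, 2 < s.re → h s = ℓ s := by
  have hR : ∀ n : ℕ, (3 : ℝ) ≤ (n + 3 : ℕ) := by
    intro n
    push_cast
    have : (0 : ℝ) ≤ n := n.cast_nonneg
    linarith
  choose H hm he using fun n : ℕ => root_match hg hp hdiv hℓ hℓ0 hgℓ (hR n)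
  refine ⟨fun z => H ⌈‖z‖⌉₊ z, ?_, ?_⟩
  · intro z₀ _
    set M := ⌈‖z₀‖⌉₊ + 1 with hM
    have hz₀M : z₀ ∈ ball (0 : ℂ) ((M + 3 : ℕ) : ℝ) := by
      rw [mem_ball_zero_iff]
      have := Nat.le_ceil ‖z₀‖
      rw [hM]
      push_cast
      linarith
    have hev : ∀ n ∈ Finset.range (M + 1), z₀ ∈ ball (0 : ℂ) ((n + 3 : ℕ) : ℝ) →
        H n =ᶠ[𝓝[≠] z₀] H M := by
      intro n hn hz
      refine ident (hR n) ?_ (hm n) (hm M) (he n) (he M) hz
      have : n ≤ M := Nat.lt_succ_iff.1 (Finset.mem_range.1 hn)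
      exact_mod_cast Nat.add_le_add_right this 3
    have hev' : ∀ᶠ w in 𝓝[≠] z₀, ∀ n ∈ Finset.range (M + 1),
        z₀ ∈ ball (0 : ℂ) ((n + 3 : ℕ) : ℝ) → H n w = H M w := by
      rw [Finset.eventually_all]
      intro n hn
      by_cases hz : z₀ ∈ ball (0 : ℂ) ((n + 3 : ℕ) : ℝ)
      · filter_upwards [hev n hn hz] with w hw _
        exact hw
      · exact Eventually.of_forall fun w h => absurd h hz
    have hball : ∀ᶠ w in 𝓝[≠] z₀, w ∈ ball z₀ 1 :=
      mem_nhdsWithin_of_mem_nhds (ball_mem_nhds z₀ one_pos)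
    refine (hm M z₀ hz₀M).congr ?_
    filter_upwards [hev', hball] with w hw hwb
    rw [mem_ball, dist_eq_norm] at hwb
    have h1 : ‖w‖ < ‖z₀‖ + 1 := by
      have := norm_sub_norm_le w z₀
      linarith
    have h2 : ‖z₀‖ < ‖w‖ + 1 := by
      have := norm_sub_norm_le z₀ w
      rw [norm_sub_rev] at this
      linarith
    symm
    refine hw ⌈‖w‖⌉₊ ?_ ?_
    · rw [Finset.mem_range, Nat.lt_succ_iff, hM, Nat.ceil_le]
      push_cast
      have := Nat.le_ceil ‖z₀‖
      linarith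
    · rw [mem_ball_zero_iff]
      have := Nat.le_ceil ‖w‖
      push_cast
      linarith
  · intro s hs
    refine he _ s ?_ hs
    rw [mem_ball_zero_iff]
    have := Nat.le_ceil ‖s‖
    push_cast
    linarith

end Pool.Agent.MP_0d9be2.H83
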