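import Pool.Agent.Lib.MP_0d9be2_nt.H39.Global0
import Pool.Agent.Lib.MP_0d9be2_nt.H15.Powers

/-!
# The twist step for powers
-/

set_option autoImplicit false

open scoped NumberField
open IsDedekindDomain

namespace Pool.Agent.MP_0d9be2.H83

open Pool.Agent.MP_0d9be2.H15

/-- The power version of `continues_of_mul`. -/
theorem power_of_mul {K L : Type} [Field K] [NumberField K] [Field L] [NumberField L]
    [Algebra K L] (EL : WeierstrassCurve L) (E₁ E₂ : WeierstrassCurve K)
    (minL : ∀ w, ∃ V, IsMinimalAt EL V w) (min₁ : ∀ v, ∃ V, IsMinimalAt E₁ V v)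
    (kL k₁ : ℕ) (hL : PowerContinues EL kL) (h₁ : PowerContinues E₁ k₁)
    (S : Set (HeightOneSpectrum (𝓞 K))) (hS : S.Finite)
    (hloc : ∀ v, v ∉ S → ∀ W₁ W₂ : WeierstrassCurve (𝓞 K), IsMinimalAt E₁ W₁ v →
      IsMinimalAt E₂ W₂ v → ∀ V : HeightOneSpectrum (𝓞 L) → WeierstrassCurve (𝓞 L),
      (∀ w, IsMinimalAt EL (V w) w) → ∀ s : ℂ,
      ∏ w ∈ fib L v, factor (V w) w s = factor W₁ v s * factor W₂ v s) :
    PowerContinues E₂ (kL * k₁) := by
  classical
  intro W₂ hW₂
  choose V hV using minL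
  choose W₁ hW₁ using min₁
  obtain ⟨f, hfm, hfs⟩ := hL V hV
  obtain ⟨g, hgm, hgs⟩ := h₁ W₁ hW₁
  set T : Finset (HeightOneSpectrum (𝓞 K)) := hS.toFinset with hTdef
  set P : HeightOneSpectrum (𝓞 K) → ℂ → ℂ := fun v s =>
    (∏ w ∈ fib L v, factor (V w) w s) / factor (W₁ v) v s with hPdef
  refine ⟨fun s => (∏ v ∈ T, factor (W₂ v) v s / P v s) ^ (kL * k₁) *
    (f s ^ k₁ / g s ^ kL), ?_, ?_⟩
  · refine MeromorphicOn.fun_mul (MeromorphicOn.fun_pow ?_ _)
      (MeromorphicOn.fun_div (MeromorphicOn.fun_pow hfm _) (MeromorphicOn.fun_pow hgm _))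
    refine MeromorphicOn.fun_prod fun v _ => ?_
    refine MeromorphicOn.fun_div (factor_mero (W₂ v) v) ?_
    refine MeromorphicOn.fun_div ?_ (factor_mero (W₁ v) v)
    exact MeromorphicOn.fun_prod fun w _ => factor_mero (V w) w
  · intro s hs
    obtain ⟨hm1, hne1, hp1⟩ := conv K W₁ s hs
    obtain ⟨hmL, hneL, -⟩ := conv L V s hs
    set a : ℂ := ∏' v : HeightOneSpectrum (𝓞 K), factor (W₁ v) v s with ha
    set b : ℂ := ∏' w : HeightOneSpectrum (𝓞 L), factor (V w) w s with hb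
    have h1 : HasProd (fun v => factor (W₁ v) v s) a := hm1.hasProd
    have h2 : HasProd (fun v : HeightOneSpectrum (𝓞 K) => ∏ w ∈ fib L v, factor (V w) w s)
        b := hasProd_fib (K := K) hmL.hasProd
    have hPprod : HasProd (fun v : HeightOneSpectrum (𝓞 K) => P v s) (b / a) := by
      have h3 := h2.mul (h1.inv₀ hp1)
      simp only [hPdef, div_eq_mul_inv]
      exact h3
    have hPne : ∀ v, P v s ≠ 0 := by
      intro v
      refine div_ne_zero (Finset.prod_ne_zero_iff.mpr fun w _ => hneL w) (hne1 v)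
    have hR : HasProd (fun v => factor (W₂ v) v s / P v s) (∏ v ∈ T, factor (W₂ v) v s / P v s) := by
      refine hasProd_prod_of_ne_finset_one fun v hv => ?_
      rw [hTdef, Set.Finite.mem_toFinset] at hv
      have h4 := hloc v hv (W₁ v) (W₂ v) (hW₁ v) (hW₂ v) V hV s
      have h5 : factor (W₂ v) v s = P v s := by
        rw [hPdef]
        simp only
        rw [h4, mul_comm, mul_div_assoc, div_self (hne1 v), mul_one]
      rw [← h5, div_self]
      rw [h5]
      exact hPne v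
    have hall := hR.mul hPprod
    have heq : (fun v => factor (W₂ v) v s / P v s * P v s) = fun v => factor (W₂ v) v s := by
      funext v
      exact div_mul_cancel₀ _ (hPne v)
    rw [heq] at hall
    rw [hall.tprod_eq]
    beta_reduce
    rw [hfs s hs, hgs s hs, mul_pow, div_pow, ← pow_mul, ← pow_mul, mul_comm k₁ kL]

/-- The local identity for a curve and its quadratic twist. -/
theorem twist_pair (K F : Type) [Field K] [NumberField K] [Field F] [NumberField F] [Algebra K F]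
    (E E' : WeierstrassCurve K) [E.IsElliptic] [E'.IsElliptic] (d : K) (hT : IsTwist d E E')
    (h2 : Module.finrank K F = 2) (hx : ∃ x : F, x ^ 2 = algebraMap K F d)
    (hnx : ¬ ∃ x : K, x ^ 2 = d) :
    ∃ S : Set (HeightOneSpectrum (𝓞 K)), S.Finite ∧ ∀ v, v ∉ S →
      ∀ W W' : WeierstrassCurve (𝓞 K), IsMinimalAt E W v → IsMinimalAt E' W' v →
        ∀ V : HeightOneSpectrum (𝓞 F) → WeierstrassCurve (𝓞 F),
        (∀ w, IsMinimalAt (E.map (algebraMap K F)) (V w) w) → ∀ s : ℂ,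
        ∏ w ∈ fib F v, factor (V w) w s = factor W v s * factor W' v s := by
  classical
  obtain ⟨A, B, C, C', hC, hC'⟩ := hT
  obtain ⟨u, hu0, hu⟩ := exists_scale ({A, B, d} : Finset K)
  obtain ⟨A', hA'⟩ := hu A (by simp)
  obtain ⟨B', hB'⟩ := hu B (by simp)
  obtain ⟨d', hd'⟩ := hu d (by simp)
  have huK : (u : K) ≠ 0 := by
    intro h
    exact hu0 (NumberField.RingOfIntegers.coe_injective (by rw [map_zero]; exact h))
  set c : 𝓞 K →+* K := algebraMap (𝓞 K) K with hc
  change c A' = c u * A at hA'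
  change c B' = c u * B at hB'
  change c d' = c u * d at hd'
  change c u ≠ 0 at huK
  obtain ⟨A₀, eA⟩ : ∃ x : 𝓞 K, c x = c u ^ 4 * A := ⟨u ^ 3 * A', by
    rw [map_mul, map_pow, hA']
    ring⟩
  obtain ⟨B₀, eB⟩ : ∃ x : 𝓞 K, c x = c u ^ 6 * B := ⟨u ^ 5 * B', by
    rw [map_mul, map_pow, hB']
    ring⟩
  obtain ⟨d₀, ed⟩ : ∃ x : 𝓞 K, c x = c u ^ 2 * d := ⟨u * d', by
    rw [map_mul, hd']
    ring⟩
  have hsm : ∀ a b : 𝓞 K, (short a b).map c = short (c a) (c b) := by
    intro a b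
    unfold short WeierstrassCurve.map
    simp
  -- the two curves over `K`
  have h1 : ∃ D : WeierstrassCurve.VariableChange K, D • E = (short A₀ B₀).map c := by
    refine ⟨(⟨(Units.mk0 _ huK)⁻¹, 0, 0, 0⟩ : WeierstrassCurve.VariableChange K) * C, ?_⟩
    rw [mul_smul, hC, short_scale, hsm, eA, eB]
    rfl
  have h1' : ∃ D : WeierstrassCurve.VariableChange K,
      D • E' = (short (d₀ ^ 2 * A₀) (d₀ ^ 3 * B₀)).map c := by
    refine ⟨(⟨(Units.mk0 _ (pow_ne_zero 2 huK))⁻¹, 0, 0, 0⟩ :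
      WeierstrassCurve.VariableChange K) * C', ?_⟩
    rw [mul_smul, hC', short_scale, hsm, map_mul c (d₀ ^ 2), map_mul c (d₀ ^ 3), map_pow,
      map_pow, eA, eB, ed]
    simp only [Units.val_mk0]
    congr 1 <;> ring
  obtain ⟨D, hD⟩ := h1
  obtain ⟨D', hD'⟩ := h1'
  have hDF : (D.map (algebraMap K F)) • (E.map (algebraMap K F))
      = ((short A₀ B₀).map c).map (algebraMap K F) := by
    rw [WeierstrassCurve.map_variableChange, hD]
  have : ((short A₀ B₀).map c).IsElliptic := by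
    rw [← hD]
    infer_instance
  have hdisc : 4 * A₀ ^ 3 + 27 * B₀ ^ 2 ≠ 0 := by
    intro h0
    have h3 : ((short A₀ B₀).map c).Δ = 0 := by
      rw [WeierstrassCurve.map_Δ]
      have h4 : (short A₀ B₀).Δ = -16 * (4 * A₀ ^ 3 + 27 * B₀ ^ 2) := by
        unfold short WeierstrassCurve.Δ WeierstrassCurve.b₂ WeierstrassCurve.b₄
          WeierstrassCurve.b₆ WeierstrassCurve.b₈
        ring
      rw [h4, h0, mul_zero, map_zero]
    exact ((short A₀ B₀).map c).isUnit_Δ.ne_zero h3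
  have hx' : ∃ x : F, x ^ 2 = algebraMap K F (algebraMap (𝓞 K) K d₀) := by
    obtain ⟨x, hx⟩ := hx
    refine ⟨algebraMap K F (c u) * x, ?_⟩
    change _ = algebraMap K F (c d₀)
    rw [ed, map_mul, mul_pow, hx, map_pow]
  have hnx' : ¬ ∃ x : K, x ^ 2 = algebraMap (𝓞 K) K d₀ := by
    rintro ⟨y, hy⟩
    refine hnx ⟨y / c u, ?_⟩
    rw [div_pow, hy]
    change c d₀ / _ = _
    rw [ed]
    field_simp
  obtain ⟨S, hS, hloc⟩ := H39.localTwist H29.change H36.same H39.quad K F A₀ B₀ d₀ hdisc h2 hx' hnx'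
  refine ⟨S, hS, fun v hv W W' hW hW' V hV s => ?_⟩
  exact hloc v hv W W' V ((isMinimalAt_congr D hD W v).1 hW) ((isMinimalAt_congr D' hD' W' v).1 hW')
    (fun w => (isMinimalAt_congr _ hDF (V w) w).1 (hV w)) s

/-- The twist step for powers, in both directions. -/
theorem half_power (K F : Type) [Field K] [NumberField K] [Field F] [NumberField F] [Algebra K F]
    (E E' : WeierstrassCurve K) [E.IsElliptic] [E'.IsElliptic] (d : K) (hT : IsTwist d E E')
    (h2 : Module.finrank K F = 2) (hx : ∃ x : F, x ^ 2 = algebraMap K F d)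
    (hnx : ¬ ∃ x : K, x ^ 2 = d) (k m : ℕ) (hF : PowerContinues (E.map (algebraMap K F)) m) :
    (PowerContinues E k → PowerContinues E' (m * k)) ∧
      (PowerContinues E' k → PowerContinues E (m * k)) := by
  obtain ⟨S, hS, hloc⟩ := twist_pair K F E E' d hT h2 hx hnx
  refine ⟨fun h => ?_, fun h => ?_⟩
  · exact power_of_mul (E.map (algebraMap K F)) E E' (fun w => H7.minimal F _ w)
      (fun v => H7.minimal K _ v) m k hF h S hS
      fun v hv W₁ W₂ h₁ h₂ V hV s => hloc v hv W₁ W₂ h₁ h₂ V hV s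
  · refine power_of_mul (E.map (algebraMap K F)) E' E (fun w => H7.minimal F _ w)
      (fun v => H7.minimal K _ v) m k hF h S hS
      fun v hv W₁ W₂ h₁ h₂ V hV s => ?_
    rw [hloc v hv W₂ W₁ h₂ h₁ V hV s, mul_comm]

theorem power_congr {K : Type} [Field K] [NumberField K] {E E₁ : WeierstrassCurve K}
    (C : WeierstrassCurve.VariableChange K) (h : C • E = E₁) (k : ℕ) :
    PowerContinues E k ↔ PowerContinues E₁ k := by
  unfold PowerContinues
  simp only [isMinimalAt_congr C h]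

/-- The twist by a square. -/
theorem power_twist_sq {K : Type} [Field K] [NumberField K] (E E' : WeierstrassCurve K) (x : K)
    (hx : x ≠ 0) (hT : IsTwist (x ^ 2) E E') (k : ℕ) :
    PowerContinues E k ↔ PowerContinues E' k := by
  obtain ⟨A, B, C, C', hC, hC'⟩ := hT
  rw [power_congr C hC, power_congr C' hC']
  refine power_congr (⟨(Units.mk0 x hx)⁻¹, 0, 0, 0⟩ : WeierstrassCurve.VariableChange K) ?_ k
  rw [short_scale, Units.val_mk0]
  congr 1 <;> ring

end Pool.Agent.MP_0d9be2.H83
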