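import Pool.Agent.Lib.MP_0d9be2_nt.H83.Max
import Pool.Agent.Lib.MP_0d9be2_nt.H83.Twist

/-!
# The quadratic twists by elements of the maximal field
-/

set_option autoImplicit false

open scoped NumberField Pointwise
open IsDedekindDomain NumberField

namespace Pool.Agent.MP_0d9be2.H83

open Pool.Agent.MP_0d9be2.H36 Pool.Agent.MP_0d9be2.H63 Pool.Agent.MP_0d9be2.H39

section

variable {K : Type} [Field K] [NumberField K]

omit [NumberField K] in
theorem comp_adjoin_eq (F : IntermediateField K (AlgebraicClosure K)) (r : AlgebraicClosure K) :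
    H63.comp F (IntermediateField.adjoin K {r}) = IntermediateField.adjoin F {r} := by
  apply IntermediateField.restrictScalars_injective K
  rw [IntermediateField.restrictScalars_adjoin, IntermediateField.adjoin_union,
    IntermediateField.adjoin_self, IntermediateField.extendScalars_restrictScalars]

omit [NumberField K] in
theorem finrank_comp_adjoin (F : IntermediateField K (AlgebraicClosure K))
    (r : AlgebraicClosure K) (hr : r ^ 2 ∈ F) (hr' : r ∉ F) :
    Module.finrank F (H63.comp F (IntermediateField.adjoin K {r})) = 2 := by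
  rw [comp_adjoin_eq]
  have hint : IsIntegral F r := by
    refine ⟨Polynomial.X ^ 2 - Polynomial.C (⟨r ^ 2, hr⟩ : F),
      Polynomial.monic_X_pow_sub_C _ two_ne_zero, ?_⟩
    rw [Polynomial.eval₂_sub, Polynomial.eval₂_X_pow, Polynomial.eval₂_C, sub_eq_zero]
    rfl
  rw [IntermediateField.adjoin.finrank hint]
  apply le_antisymm
  · have h1 : (minpoly F r).natDegree ≤
        (Polynomial.X ^ 2 - Polynomial.C (⟨r ^ 2, hr⟩ : F)).natDegree := by
      refine Polynomial.natDegree_le_natDegree (minpoly.min F r
        (Polynomial.monic_X_pow_sub_C _ two_ne_zero) ?_)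
      rw [map_sub, map_pow, Polynomial.aeval_X, Polynomial.aeval_C, sub_eq_zero]
      rfl
    rwa [Polynomial.natDegree_X_pow_sub_C] at h1
  · rw [minpoly.two_le_natDegree_iff hint]
    rintro ⟨x, hx⟩
    apply hr'
    rw [← hx]
    exact x.2

/-- For all large number fields `F` in the maximal field, the twist of `E` by `a` is bad over `F`
if and only if `E` is. -/
theorem twist_max {S : Set ℕ} (hSmul : ∀ a ∈ S, ∀ b ∈ S, a * b ∈ S)
    {E : WeierstrassCurve K} [E.IsElliptic] {X : IntermediateField K (AlgebraicClosure K)}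
    (hmax : ∀ Y : IntermediateField K (AlgebraicClosure K), X ≤ Y → PBS S E Y → Y ≤ X)
    (a : AlgebraicClosure K) (ha : a ≠ 0) :
    ∃ F₁ : IntermediateField K (AlgebraicClosure K), FiniteDimensional K F₁ ∧ F₁ ≤ X ∧
      ∀ (F : IntermediateField K (AlgebraicClosure K)) [NumberField F], F₁ ≤ F → F ≤ X →
        ∀ (haF : a ∈ F) (E' : WeierstrassCurve F) [E'.IsElliptic],
          IsTwist (⟨a, haF⟩ : F) (E.map (algebraMap K F)) E' →
            (Bad S (E.map (algebraMap K F)) ↔ Bad S E') := by
  obtain ⟨r, hr⟩ := IsAlgClosed.exists_pow_nat_eq a (n := 2) two_pos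
  have hr0 : r ≠ 0 := by
    rintro rfl
    apply ha
    rw [← hr]
    exact zero_pow two_ne_zero
  have hfd : FiniteDimensional K (IntermediateField.adjoin K {r}) :=
    IntermediateField.adjoin.finiteDimensional (Algebra.IsIntegral.isIntegral r)
  by_cases hrX : r ∈ X
  · refine ⟨IntermediateField.adjoin K {r}, hfd, ?_, ?_⟩
    · rw [IntermediateField.adjoin_le_iff]
      rintro _ rfl
      exact hrX
    · intro F nfF hF hFX haF E' _ hT
      have hrF : r ∈ F := hF (IntermediateField.mem_adjoin_simple_self K r)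
      have h1 : (⟨a, haF⟩ : F) = (⟨r, hrF⟩ : F) ^ 2 := Subtype.ext hr.symm
      rw [h1] at hT
      have h2 : (⟨r, hrF⟩ : F) ≠ 0 := fun h => hr0 (congrArg Subtype.val h)
      have h3 := power_twist_sq (E.map (algebraMap K F)) E' _ h2 hT
      unfold Bad
      simp only [h3]
  · have hM : ¬ IntermediateField.adjoin K {r} ≤ X := fun h =>
      hrX (h (IntermediateField.mem_adjoin_simple_self K r))
    obtain ⟨F₁, h1, h2, h3⟩ := good_above hmax (IntermediateField.adjoin K {r}) hM
    refine ⟨F₁, h1, h2, ?_⟩
    intro F nfF hF hFX haF E' _ hT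
    have hrF : r ∉ F := fun h => hrX (hFX h)
    have nf2 : NumberField (H63.comp F (IntermediateField.adjoin K {r})) := H63.numberField_comp F _
    have nf3 : NumberField ↥(F ⊔ IntermediateField.adjoin K {r}) := nf2
    have hgood : ¬ Bad S (E.map (algebraMap K ↥(F ⊔ IntermediateField.adjoin K {r}))) :=
      fun h => h3 F hF hFX ⟨nf3, h⟩
    unfold Bad at hgood
    push Not at hgood
    obtain ⟨m, hm, hmc⟩ := hgood
    have hmc' : PowerContinues ((E.map (algebraMap K F)).map
        (algebraMap F (H63.comp F (IntermediateField.adjoin K {r})))) m := by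
      rw [WeierstrassCurve.map_map]
      exact hmc
    have hfr := finrank_comp_adjoin F r (by rw [hr]; exact haF) hrF
    have hx : ∃ x : H63.comp F (IntermediateField.adjoin K {r}), x ^ 2 =
        algebraMap F (H63.comp F (IntermediateField.adjoin K {r})) ⟨a, haF⟩ :=
      ⟨⟨r, (le_sup_right : _ ≤ F ⊔ IntermediateField.adjoin K {r})
        (IntermediateField.mem_adjoin_simple_self K r)⟩, Subtype.ext hr⟩
    have hnx : ¬ ∃ x : F, x ^ 2 = ⟨a, haF⟩ := by
      rintro ⟨x, hx⟩
      have h4 : (x : AlgebraicClosure K) ^ 2 = r ^ 2 := by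
        rw [hr]
        exact congrArg Subtype.val hx
      rcases sq_eq_sq_iff_eq_or_eq_neg.1 h4 with h5 | h5
      · exact hrF (h5 ▸ x.2)
      · apply hrF
        have h6 : r = -(x : AlgebraicClosure K) := by rw [h5, neg_neg]
        rw [h6]
        exact neg_mem x.2
    constructor
    · intro hb k hk hkc
      exact hb (m * k) (hSmul m hm k hk)
        ((half_power F _ (E.map (algebraMap K F)) E' ⟨a, haF⟩ hT hfr hx hnx k m hmc').2 hkc)
    · intro hb k hk hkc
      exact hb (m * k) (hSmul m hm k hk)
        ((half_power F _ (E.map (algebraMap K F)) E' ⟨a, haF⟩ hT hfr hx hnx k m hmc').1 hkc)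

end

end Pool.Agent.MP_0d9be2.H83
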